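import Pool.Graph.R_seed8.Helper112.LS
import Pool.Graph.R_seed8.TH935.GF2
import Pool.Graph.R_seed8.H469R2.NK.KL

set_option autoImplicit false

/-! # The large sieve for families of integers of small energy -/

namespace Pool.Agent.H96.FP

open Finset
open Pool.Agent.H469R2.NK (e norm_e e_add e_zero)
open Pool.Agent.Helper112 (lsSep ls_general)
open Pool.Agent.TH935.GF (En)

lemma ee_eq (x : ℝ) : Pool.Agent.Helper112.ee x = e x := by
  unfold Pool.Agent.Helper112.ee e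
  congr 1
  push_cast
  ring

lemma e_sum {κ : Type*} (s : Finset κ) (f : κ → ℝ) : e (∑ i ∈ s, f i) = ∏ i ∈ s, e (f i) := by
  classical
  induction s using Finset.induction_on with
  | empty => simp [e_zero]
  | insert a s ha ih => rw [sum_insert ha, prod_insert ha, e_add, ih]

open Classical in
lemma energy_fibre (p N : ℕ) (ι : Type) [Fintype ι] (v : ι → ℤ) (hv : ∀ z, |v z| ≤ N) :
    ((En p v : ℕ) : ℝ) = ∑ n ∈ Icc 1 (2 * p * N + 1),
      (((univ : Finset (Fin p → ι)).filter fun q => (∑ j, v (q j) + (p * N + 1 : ℕ)).toNat = n).card : ℝ) ^ 2 := by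
  have hb : ∀ q : Fin p → ι, |∑ j, v (q j)| ≤ p * N := by
    intro q
    calc |∑ j, v (q j)| ≤ ∑ j, |v (q j)| := abs_sum_le_sum_abs _ _
      _ ≤ ∑ _j : Fin p, (N : ℤ) := sum_le_sum fun j _ => hv _
      _ = p * N := by simp
  have hmem : ∀ q : Fin p → ι, (∑ j, v (q j) + (p * N + 1 : ℕ)).toNat ∈ Icc 1 (2 * p * N + 1) := by
    intro q
    have h1 := abs_le.1 (hb q)
    have h2 : ((2 * p * N + 1 : ℕ) : ℤ) = p * N + p * N + 1 := by push_cast; ring
    rw [mem_Icc]
    push_cast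
    omega
  have h1 : En p v = ∑ n ∈ Icc 1 (2 * p * N + 1),
      ((univ : Finset (Fin p → ι)).filter fun q => (∑ j, v (q j) + (p * N + 1 : ℕ)).toNat = n).card ^ 2 := by
    have e1 : En p v = ((univ : Finset ((Fin p → ι) × (Fin p → ι))).filter
        fun q => ∑ j, v (q.1 j) = ∑ j, v (q.2 j)).card := by
      unfold En
      rw [Nat.card_eq_fintype_card, Fintype.card_subtype]
    rw [e1, card_eq_sum_card_fiberwise (f := fun q => (∑ j, v (q.1 j) + (p * N + 1 : ℕ)).toNat)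
      (t := Icc 1 (2 * p * N + 1)) (fun q _ => hmem q.1)]
    refine sum_congr rfl fun n _ => ?_
    rw [sq, ← card_product]
    congr 1
    ext q
    rw [mem_filter, mem_filter, mem_product, mem_filter, mem_filter]
    have h2 := abs_le.1 (hb q.1)
    have h3 := abs_le.1 (hb q.2)
    constructor
    · rintro ⟨⟨_, h4⟩, h5⟩
      refine ⟨⟨mem_univ _, h5⟩, ⟨mem_univ _, ?_⟩⟩
      rw [← h4]
      exact h5
    · rintro ⟨⟨_, h4⟩, ⟨_, h5⟩⟩
      refine ⟨⟨mem_univ _, ?_⟩, h4⟩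
      rw [← h5] at h4
      have h6 := congrArg (fun n : ℕ => (n : ℤ)) h4
      rw [Int.toNat_of_nonneg (by push_cast; linarith [h2.1]), Int.toNat_of_nonneg (by push_cast; linarith [h3.1])] at h6
      linarith
  rw [h1]
  push_cast
  rfl

theorem sieve_energy (p N K : ℕ) (hK : 1 ≤ K) (ι : Type) [Fintype ι] (v : ι → ℤ) (hv : ∀ z, |v z| ≤ N)
    (c : ι → ℂ) (hc : ∀ z, ‖c z‖ ≤ 1) {α₀ : Type} [DecidableEq α₀] (A : Finset α₀) (x : α₀ → ℝ)
    (hsep : ∀ a ∈ A, ∀ b ∈ A, a ≠ b → lsSep K (x b - x a)) :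
    ∑ a ∈ A, ‖∑ z, c z * e (x a * v z)‖ ^ (2 * p) ≤ 6 * (((2 * p * N + 1 : ℕ) : ℝ) + K) * En p v := by
  classical
  have hb : ∀ q : Fin p → ι, |∑ j, v (q j)| ≤ p * N := by
    intro q
    calc |∑ j, v (q j)| ≤ ∑ j, |v (q j)| := abs_sum_le_sum_abs _ _
      _ ≤ ∑ _j : Fin p, (N : ℤ) := sum_le_sum fun j _ => hv _
      _ = p * N := by simp
  have hmem : ∀ q : Fin p → ι, (∑ j, v (q j) + (p * N + 1 : ℕ)).toNat ∈ Icc 1 (2 * p * N + 1) := by
    intro q
    have h1 := abs_le.1 (hb q)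
    have h2 : ((2 * p * N + 1 : ℕ) : ℤ) = p * N + p * N + 1 := by push_cast; ring
    rw [mem_Icc]
    push_cast
    omega
  obtain ⟨α, hα⟩ : ∃ α : ℕ → ℂ, α = fun n => ∑ q ∈ (univ : Finset (Fin p → ι)).filter
      (fun q => (∑ j, v (q j) + (p * N + 1 : ℕ)).toNat = n), ∏ j, c (q j) := ⟨_, rfl⟩
  have hα1 : ∀ n, ‖α n‖ ≤ (((univ : Finset (Fin p → ι)).filter
      fun q => (∑ j, v (q j) + (p * N + 1 : ℕ)).toNat = n).card : ℝ) := by
    intro n
    rw [hα]
    refine (norm_sum_le _ _).trans ?_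
    have h1 : ∀ q ∈ (univ : Finset (Fin p → ι)).filter
        (fun q => (∑ j, v (q j) + (p * N + 1 : ℕ)).toNat = n), ‖∏ j, c (q j)‖ ≤ 1 := by
      intro q _
      rw [norm_prod]
      exact prod_le_one (fun _ _ => norm_nonneg _) (fun j _ => hc _)
    refine (sum_le_sum h1).trans ?_
    simp
  have hpow : ∀ a : α₀, ‖∑ z, c z * e (x a * v z)‖ ^ (2 * p) =
      ‖∑ n ∈ Icc 1 (2 * p * N + 1), α n * Pool.Agent.Helper112.ee (n * x a)‖ ^ 2 := by
    intro a
    have h1 : e (x a * (p * N + 1 : ℕ)) * (∑ z, c z * e (x a * v z)) ^ p =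
        ∑ n ∈ Icc 1 (2 * p * N + 1), α n * Pool.Agent.Helper112.ee (n * x a) := by
      rw [Fintype.sum_pow, mul_sum]
      rw [← sum_fiberwise_of_maps_to (s := (univ : Finset (Fin p → ι))) (t := Icc 1 (2 * p * N + 1))
        (g := fun q => (∑ j, v (q j) + (p * N + 1 : ℕ)).toNat) (fun q _ => hmem q)]
      refine sum_congr rfl fun n _ => ?_
      rw [hα]
      simp only
      rw [sum_mul]
      refine sum_congr rfl fun q hq => ?_
      rw [mem_filter] at hq
      rw [prod_mul_distrib, ← e_sum, ee_eq]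
      have h2 := abs_le.1 (hb q)
      have h3 : ((n : ℕ) : ℝ) = ((∑ j, v (q j) + (p * N + 1 : ℕ) : ℤ) : ℝ) := by
        have h4 : ((n : ℕ) : ℤ) = ∑ j, v (q j) + (p * N + 1 : ℕ) := by
          rw [← hq.2, Int.toNat_of_nonneg (by push_cast; linarith [h2.1])]
        exact_mod_cast congrArg (fun y : ℤ => (y : ℝ)) h4
      have h5 : (n : ℝ) * x a = x a * (p * N + 1 : ℕ) + ∑ j, x a * v (q j) := by
        rw [h3, ← mul_sum]
        push_cast
        ring
      rw [h5, e_add]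
      ring
    rw [← h1, norm_mul, norm_e, one_mul, norm_pow, ← pow_mul, mul_comm p 2]
  rw [sum_congr rfl fun a _ => hpow a]
  refine (ls_general A x K (2 * p * N + 1) hK hsep α).trans ?_
  rw [energy_fibre p N ι v hv]
  apply mul_le_mul_of_nonneg_left _ (by positivity)
  exact sum_le_sum fun n _ => pow_le_pow_left₀ (norm_nonneg _) (hα1 n) 2

end Pool.Agent.H96.FP
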