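import Pool.Agent.H96.FP.A
import Pool.Agent.H46.SD.Box

set_option autoImplicit false

/-! # Unions of boxes for families with small exponential sums -/

namespace Pool.Agent.H96.FP

open Finset
open Pool.Agent.H469R2.NK (e norm_e e_add e_zero)
open Pool.Agent.Q29.Eqd (EquiJ fract_cell)

/-- the exponent -/
def ww (s : ℕ) : ℕ := 3 * s * (2 * s + 1) + (2 * s + 1) + 3 * (2 * s + 1)

lemma equi_nat {s : ℕ} (hs : 1 ≤ s) (T : ℕ) (hT : 2 ≤ T) (M : ℕ) (y : ℕ → Fin s → ℝ)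
    (hE : ∀ h : Fin s → ℤ, h ≠ 0 → (∀ j, |(h j : ℝ)| ≤ (T : ℝ) ^ ww s) →
      ‖∑ i ∈ range M, e (∑ j, (h j : ℝ) * y i j)‖ * (T : ℝ) ^ ww s ≤ M) :
    EquiJ (range M) y T ((3 * s + 5) * M / (T : ℝ) ^ (s + 1)) := by
  intro q hq hqT ρ hρ
  have hqT' : q ≤ T := by exact_mod_cast hqT
  have hT0 : (0 : ℝ) < T := by
    have : 0 < T := by omega
    exact_mod_cast this
  have hT1 : (1 : ℝ) ≤ T := by
    have : 1 ≤ T := by omega
    exact_mod_cast this
  have hq0 : (0 : ℝ) < q := by exact_mod_cast hq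
  have hK1 : 1 ≤ T ^ (2 * s + 1) := Nat.one_le_pow _ _ (by omega)
  have h3 : 3 * q ≤ T ^ (2 * s + 1) := by
    have h4 : T ^ 3 ≤ T ^ (2 * s + 1) := Nat.pow_le_pow_right (by omega) (by omega)
    have h5 : 3 * T ≤ T ^ 3 := by
      have h6 : 4 ≤ T * T := Nat.mul_le_mul hT hT
      calc 3 * T ≤ 4 * T := by omega
        _ ≤ T * T * T := Nat.mul_le_mul_right _ h6
        _ = T ^ 3 := by ring
    omega
  obtain ⟨E, hEd⟩ : ∃ E : ℝ, E = M / (T : ℝ) ^ (3 * s * (2 * s + 1) + (2 * s + 1)) := ⟨_, rfl⟩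
  have hE0 : 0 ≤ E := by rw [hEd]; positivity
  have hd := Pool.Agent.Y961.JR.discJ hs (range M) (fun i j => (q : ℝ) * y i j) (T ^ (2 * s + 1)) q hK1 hq h3 E hE0 (by
      intro h hh hb
      have h1 := hE h hh (fun j => by
        have h2 : |(h j : ℝ)| = ((h j).natAbs : ℝ) := by
          rw [← Int.cast_abs, Int.abs_eq_natAbs]
          simp
        rw [h2]
        have h3 : (h j).natAbs ≤ T ^ ww s := by
          refine (hb j).le.trans ?_
          rw [← pow_mul]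
          apply Nat.pow_le_pow_right (by omega)
          unfold ww
          nlinarith
        exact_mod_cast h3)
      have e1 : ∑ i ∈ range M, e (∑ j, (h j : ℝ) * ((q : ℝ) * y i j / q)) =
          ∑ i ∈ range M, e (∑ j, (h j : ℝ) * y i j) := by
        refine sum_congr rfl fun i _ => ?_
        congr 1
        refine sum_congr rfl fun j _ => ?_
        rw [mul_div_cancel_left₀ _ hq0.ne']
      rw [e1, hEd, le_div_iff₀ (by positivity)]
      refine le_trans ?_ h1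
      apply mul_le_mul_of_nonneg_left _ (norm_nonneg _)
      apply pow_le_pow_right₀ hT1
      unfold ww
      omega) ρ
  have e0 : ((range M).filter fun n => ∀ j, (ρ j : ℝ) / q ≤ Int.fract (y n j) ∧ Int.fract (y n j) < (ρ j + 1) / q) =
      (range M).filter fun n => ∀ j, (q : ℤ) ∣ ⌊(q : ℝ) * y n j⌋ - ρ j := by
    apply filter_congr
    intro n _
    exact forall_congr' fun j => fract_cell q hq (ρ j) (hρ j).1 (hρ j).2 (y n j)
  rw [e0]
  refine hd.trans ?_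
  rw [card_range, hEd]
  push_cast
  have hqs : (q : ℝ) ^ s ≤ (T : ℝ) ^ s := pow_le_pow_left₀ hq0.le hqT s
  have hM0 : (0 : ℝ) ≤ M := Nat.cast_nonneg M
  calc (q : ℝ) ^ s * ((3 * s + 4) * M / (T : ℝ) ^ (2 * s + 1) + ((T : ℝ) ^ (2 * s + 1)) ^ (3 * s) *
        (M / (T : ℝ) ^ (3 * s * (2 * s + 1) + (2 * s + 1))))
      ≤ (T : ℝ) ^ s * ((3 * s + 4) * M / (T : ℝ) ^ (2 * s + 1) + ((T : ℝ) ^ (2 * s + 1)) ^ (3 * s) *
        (M / (T : ℝ) ^ (3 * s * (2 * s + 1) + (2 * s + 1)))) :=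
        mul_le_mul_of_nonneg_right hqs (by positivity)
    _ = (3 * s + 5) * M / (T : ℝ) ^ (s + 1) := by
        rw [← pow_mul, show (2 * s + 1) * (3 * s) = 3 * s * (2 * s + 1) by ring, pow_add _ (3 * s * (2 * s + 1)),
          show 2 * s + 1 = s + (s + 1) by ring, pow_add _ s (s + 1)]
        field_simp
        ring

/-- unions of boxes -/
theorem box_family {s k : ℕ} (hs : 1 ≤ s) (T : ℕ) (hT : 2 ≤ T) (Z : Type) [Fintype Z] (y : Z → Fin s → ℝ)
    (hE : ∀ h : Fin s → ℤ, h ≠ 0 → (∀ j, |(h j : ℝ)| ≤ (T : ℝ) ^ ww s) →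
      ‖∑ z, e (∑ j, (h j : ℝ) * y z j)‖ * (T : ℝ) ^ ww s ≤ Fintype.card Z)
    (a b : Fin s → Fin k → ℝ) (ha : ∀ j i, 0 ≤ a j i)
    (hab : ∀ j i, a j i ≤ b j i) (hb : ∀ j i, b j i ≤ 1) (hdis : ∀ j i i', i < i' → b j i ≤ a j i')
    (hsum1 : ∀ j, ∑ i, (b j i - a j i) ≤ 1)
    (U : Finset Z) (hU : ∀ z, (∀ j, ∃ i, a j i < Int.fract (y z j) ∧ Int.fract (y z j) < b j i) → z ∉ U) :
    (U.card : ℝ) ≤ (1 - ∏ j, ∑ i, (b j i - a j i)) * Fintype.card Z +
      (2 * s * k + 3 * s + 5) * Fintype.card Z / T := by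
  classical
  obtain ⟨M, hM⟩ : ∃ M, M = Fintype.card Z := ⟨_, rfl⟩
  obtain ⟨eq⟩ : Nonempty (Z ≃ Fin M) := ⟨by rw [hM]; exact Fintype.equivFin Z⟩
  rw [← hM] at hE ⊢
  have hT0 : (0 : ℝ) < T := by
    have : 0 < T := by omega
    exact_mod_cast this
  obtain ⟨y', hy'⟩ : ∃ y' : ℕ → Fin s → ℝ, y' = fun n => if h : n < M then y (eq.symm ⟨n, h⟩) else 0 := ⟨_, rfl⟩
  have hyy : ∀ i : Fin M, y' i = y (eq.symm i) := by
    intro i
    rw [hy']
    simp
  have hsum : ∀ h : Fin s → ℤ, ∑ i ∈ range M, e (∑ j, (h j : ℝ) * y' i j) = ∑ z, e (∑ j, (h j : ℝ) * y z j) := by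
    intro h
    rw [← Fin.sum_univ_eq_sum_range (fun i => e (∑ j, (h j : ℝ) * y' i j)) M]
    refine (Fintype.sum_equiv eq _ _ fun z => ?_).symm
    rw [hyy, Equiv.symm_apply_apply]
  have hq := equi_nat hs T hT M y' (fun h hh hb => by rw [hsum]; exact hE h hh hb)
  have hE0 : (0 : ℝ) ≤ (3 * s + 5) * M / (T : ℝ) ^ (s + 1) := by positivity
  have h1 := Pool.Agent.H46.SD.box_lower2 (range M) y' T _ hE0 hq T (by omega) le_rfl a b ha hab hb hdis
    (fun j => sum_nonneg fun i _ => by linarith [hab j i]) hsum1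
  rw [card_range] at h1
  obtain ⟨G, hG⟩ : ∃ G : Finset Z, G = univ.filter fun z => ∀ j, ∃ i, a j i < Int.fract (y z j) ∧
    Int.fract (y z j) < b j i := ⟨_, rfl⟩
  have h2 : (((range M).filter fun n => ∀ j, ∃ i, a j i < Int.fract (y' n j) ∧
      Int.fract (y' n j) < b j i).card : ℝ) ≤ G.card := by
    have : ((range M).filter fun n => ∀ j, ∃ i, a j i < Int.fract (y' n j) ∧
      Int.fract (y' n j) < b j i).card ≤ G.card := by
      apply card_le_card_of_surjOn (fun z => ((eq z : Fin M) : ℕ))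
      intro n hn
      rw [coe_filter] at hn
      obtain ⟨hn1, hn2⟩ := hn
      have hn1 := mem_range.1 hn1
      refine ⟨eq.symm ⟨n, hn1⟩, ?_, by simp⟩
      rw [hG, coe_filter]
      refine ⟨mem_univ _, ?_⟩
      have h3 := hyy ⟨n, hn1⟩
      simp only at h3
      rw [← h3]
      exact hn2
    exact_mod_cast this
  have h3 : U.card + G.card ≤ M := by
    rw [← card_union_of_disjoint]
    · rw [hM]
      exact card_le_univ _
    · rw [Finset.disjoint_left]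
      intro z hz hz'
      rw [hG, mem_filter] at hz'
      exact hU z hz'.2 hz
  have h4 : (U.card : ℝ) + G.card ≤ M := by exact_mod_cast h3
  have h5 : (∏ j, ∑ i, (b j i - a j i) - s * (2 * k / T)) * M - (T : ℝ) ^ s * ((3 * s + 5) * M / (T : ℝ) ^ (s + 1)) =
      (∏ j, ∑ i, (b j i - a j i)) * M - (2 * s * k + 3 * s + 5) * M / T := by
    rw [pow_succ]
    field_simp
    ring
  rw [h5] at h1
  linarith

/-- few members of the family at a given point -/
theorem point_family {s : ℕ} (hs : 1 ≤ s) (T : ℕ) (hT : 2 ≤ T) (Z : Type) [Fintype Z] (y : Z → Fin s → ℝ)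
    (hE : ∀ h : Fin s → ℤ, h ≠ 0 → (∀ j, |(h j : ℝ)| ≤ (T : ℝ) ^ ww s) →
      ‖∑ z, e (∑ j, (h j : ℝ) * y z j)‖ * (T : ℝ) ^ ww s ≤ Fintype.card Z)
    (y₀ : Fin s → ℝ) (U : Finset Z) (hU : ∀ z ∈ U, y z = y₀) :
    (U.card : ℝ) ≤ (3 * s + 6) * Fintype.card Z / T := by
  classical
  obtain ⟨M, hM⟩ : ∃ M, M = Fintype.card Z := ⟨_, rfl⟩
  have hT0 : (0 : ℝ) < T := by
    have : 0 < T := by omega
    exact_mod_cast this
  have hT1 : (1 : ℝ) ≤ T := by
    have : 1 ≤ T := by omega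
    exact_mod_cast this
  have j₀ : Fin s := ⟨0, hs⟩
  obtain ⟨eq⟩ : Nonempty (Z ≃ Fin M) := ⟨by rw [hM]; exact Fintype.equivFin Z⟩
  rw [← hM] at hE ⊢
  obtain ⟨y', hy'⟩ : ∃ y' : ℕ → Fin s → ℝ, y' = fun n => if h : n < M then y (eq.symm ⟨n, h⟩) else 0 := ⟨_, rfl⟩
  have hyy : ∀ i : Fin M, y' i = y (eq.symm i) := by
    intro i
    rw [hy']
    simp
  have hsum : ∀ h : Fin s → ℤ, ∑ i ∈ range M, e (∑ j, (h j : ℝ) * y' i j) = ∑ z, e (∑ j, (h j : ℝ) * y z j) := by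
    intro h
    rw [← Fin.sum_univ_eq_sum_range (fun i => e (∑ j, (h j : ℝ) * y' i j)) M]
    refine (Fintype.sum_equiv eq _ _ fun z => ?_).symm
    rw [hyy, Equiv.symm_apply_apply]
  have hq := equi_nat hs T hT M y' (fun h hh hb => by rw [hsum]; exact hE h hh hb)
  obtain ⟨ρ, hρ⟩ : ∃ ρ : Fin s → ℤ, ρ = fun j => ⌊(T : ℝ) * Int.fract (y₀ j)⌋ := ⟨_, rfl⟩
  have hρ1 : ∀ j, 0 ≤ ρ j ∧ ρ j < T := by
    intro j
    rw [hρ]
    constructor
    · exact Int.floor_nonneg.2 (mul_nonneg hT0.le (Int.fract_nonneg _))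
    · rw [Int.floor_lt]
      have := Int.fract_lt_one (y₀ j)
      push_cast
      nlinarith
  have h1 := hq T (by omega) le_rfl ρ hρ1
  have h2 : (U.card : ℝ) ≤ (((range M).filter fun n => ∀ j, (ρ j : ℝ) / T ≤ Int.fract (y' n j) ∧
      Int.fract (y' n j) < (ρ j + 1) / T).card : ℝ) := by
    have : U.card ≤ ((range M).filter fun n => ∀ j, (ρ j : ℝ) / T ≤ Int.fract (y' n j) ∧
      Int.fract (y' n j) < (ρ j + 1) / T).card := by
      apply card_le_card_of_injOn (fun z => ((eq z : Fin M) : ℕ))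
      · intro z hz
        rw [coe_filter]
        refine ⟨mem_range.2 (eq z).2, fun j => ?_⟩
        rw [hyy, Equiv.symm_apply_apply, hU z hz, hρ]
        constructor
        · rw [div_le_iff₀ hT0, mul_comm]
          exact Int.floor_le _
        · rw [lt_div_iff₀ hT0, mul_comm]
          exact Int.lt_floor_add_one _
      · intro z _ z' _ hzz
        exact eq.injective (Fin.ext hzz)
    exact_mod_cast this
  have h3 := (abs_le.1 h1).2
  rw [card_range] at h3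
  have hM0 : (0 : ℝ) ≤ M := Nat.cast_nonneg M
  have h4 : (M : ℝ) / (T : ℝ) ^ s ≤ M / T := by
    apply div_le_div_of_nonneg_left hM0 hT0
    calc (T : ℝ) = (T : ℝ) ^ 1 := (pow_one _).symm
      _ ≤ (T : ℝ) ^ s := pow_le_pow_right₀ hT1 hs
  have h5 : (3 * s + 5) * M / (T : ℝ) ^ (s + 1) ≤ (3 * s + 5) * M / T := by
    apply div_le_div_of_nonneg_left (by positivity) hT0
    calc (T : ℝ) = (T : ℝ) ^ 1 := (pow_one _).symm
      _ ≤ (T : ℝ) ^ (s + 1) := pow_le_pow_right₀ hT1 (by omega)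
  have h6 : (3 * s + 6) * (M : ℝ) / T = M / T + (3 * s + 5) * M / T := by ring
  rw [h6]
  linarith

end Pool.Agent.H96.FP
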