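import Pool.Agent.H96.FP.B

set_option autoImplicit false

/-! # Few exceptional factors -/

namespace Pool.Agent.H96.FP

open Finset
open Pool.Agent.H469R2.NK (e norm_e e_add e_zero)
open Pool.Agent.Helper112 (lsSep)
open Pool.Agent.TH935.GF (En)
open Pool.Agent.Q29.Eqd (ev_rpow)

/-- quantitative linear independence of the `θ j` and `1` over the rational numbers -/
def Dio {s : ℕ} (θ : Fin s → ℝ) (D : ℕ) : Prop :=
  ∃ c : ℝ, 0 < c ∧ ∀ (h : Fin s → ℤ) (n : ℤ), h ≠ 0 → ∀ H : ℝ, 1 ≤ H → (∀ j, |(h j : ℝ)| ≤ H) →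
    c ≤ |∑ j, (h j : ℝ) * θ j - n| * H ^ D

lemma lsSep_of {N : ℕ} {x : ℝ} (h : ∀ n : ℤ, 1 / (N : ℝ) ≤ |x - n|) : lsSep N x := by
  have h1 := h ⌊x⌋
  have h2 := h (⌊x⌋ + 1)
  have h3 := Int.self_sub_floor x
  have h4 := Int.fract_nonneg x
  have h5 := Int.fract_lt_one x
  constructor
  · rw [h3, abs_of_nonneg h4] at h1
    exact h1
  · push_cast at h2
    have h6 : x - (⌊x⌋ + 1) = Int.fract x - 1 := by rw [← h3]; ring
    rw [h6, abs_of_neg (by linarith)] at h2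
    linarith

/-- the number of the exceptional factors for one frequency -/
lemma few_one {s : ℕ} (θ : Fin s → ℝ) (D : ℕ) (c₀ : ℝ) (hc₀ : 0 < c₀) (hθ : ∀ (h : Fin s → ℤ) (n : ℤ), h ≠ 0 →
    ∀ H : ℝ, 1 ≤ H → (∀ j, |(h j : ℝ)| ≤ H) → c₀ ≤ |∑ j, (h j : ℝ) * θ j - n| * H ^ D)
    (p N : ℕ) (hN : 1 ≤ N) (Q W : ℝ) (hQ : 1 ≤ Q) (hW : 1 ≤ W) (hQW : (Q * W) ^ D ≤ c₀ * N)
    (Z : Type) [Fintype Z] (v : Z → ℤ) (hv : ∀ z, |v z| ≤ N) (c : Z → ℂ) (hc : ∀ z, ‖c z‖ ≤ 1)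
    (X : ℝ) (hX : 0 ≤ X) (hE : (En p v : ℝ) * N ≤ X * (Fintype.card Z : ℝ) ^ (2 * p))
    (h : Fin s → ℤ) (hh : h ≠ 0) (hhQ : ∀ j, |(h j : ℝ)| ≤ Q)
    (A : Finset ℤ) (hAW : ∀ a ∈ A, ∀ b ∈ A, |((b - a : ℤ) : ℝ)| ≤ W)
    (hA : ∀ a ∈ A, (Fintype.card Z : ℝ) < ‖∑ z, c z * e ((∑ j, (h j : ℝ) * θ j) * a * v z)‖ * Q) :
    (A.card : ℝ) ≤ 12 * (p + 1) * X * Q ^ (2 * p) := by
  have hN0 : (0 : ℝ) < N := by exact_mod_cast hN
  have hN1 : (1 : ℝ) ≤ N := by exact_mod_cast hN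
  have hQ0 : 0 < Q := by linarith
  rcases A.eq_empty_or_nonempty with rfl | ⟨a₀, ha₀⟩
  · rw [card_empty]
    push_cast
    positivity
  have hZ : (0 : ℝ) < Fintype.card Z := by
    have h0 : Fintype.card Z ≠ 0 := by
      intro h0
      have h1 : IsEmpty Z := Fintype.card_eq_zero_iff.1 h0
      have h2 := hA a₀ ha₀
      simp at h2
    exact_mod_cast Nat.pos_of_ne_zero h0
  obtain ⟨Y, hY⟩ : ∃ Y : ℝ, Y = (Fintype.card Z : ℝ) := ⟨_, rfl⟩
  rw [← hY] at hZ hE hA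
  have hsep : ∀ a ∈ A, ∀ b ∈ A, a ≠ b →
      lsSep N ((∑ j, (h j : ℝ) * θ j) * b - (∑ j, (h j : ℝ) * θ j) * a) := by
    intro a ha b hb hab
    apply lsSep_of
    intro n
    have h1 := hθ (fun j => h j * (b - a)) n (by
      intro h0
      apply hh
      funext j
      have h2 := congrFun h0 j
      simp only [Pi.zero_apply] at h2
      rcases mul_eq_zero.1 h2 with h3 | h3
      · exact h3
      · exact absurd (sub_eq_zero.1 h3).symm hab) (Q * W) (one_le_mul_of_one_le_of_one_le hQ hW) (by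
      intro j
      push_cast
      rw [abs_mul]
      have h2 := hAW a ha b hb
      push_cast at h2
      exact mul_le_mul (hhQ j) h2 (abs_nonneg _) (by linarith))
    have h2 : ∑ j, ((h j * (b - a) : ℤ) : ℝ) * θ j = (∑ j, (h j : ℝ) * θ j) * b - (∑ j, (h j : ℝ) * θ j) * a := by
      rw [sum_mul, sum_mul, ← sum_sub_distrib]
      refine sum_congr rfl fun j _ => ?_
      push_cast
      ring
    rw [h2] at h1
    obtain ⟨F, hF⟩ : ∃ F, F = |(∑ j, (h j : ℝ) * θ j) * b - (∑ j, (h j : ℝ) * θ j) * a - n| := ⟨_, rfl⟩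
    rw [← hF] at h1 ⊢
    have hF0 : 0 ≤ F := by rw [hF]; exact abs_nonneg _
    have h3 : c₀ ≤ F * (c₀ * N) := h1.trans (mul_le_mul_of_nonneg_left hQW hF0)
    rw [div_le_iff₀ hN0]
    by_contra hcon
    push Not at hcon
    nlinarith
  have h1 := sieve_energy p N N hN Z v hv c hc A (fun a => (∑ j, (h j : ℝ) * θ j) * a) hsep
  have h2 : (A.card : ℝ) * (Y / Q) ^ (2 * p) ≤
      ∑ a ∈ A, ‖∑ z, c z * e ((∑ j, (h j : ℝ) * θ j) * a * v z)‖ ^ (2 * p) := by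
    rw [← nsmul_eq_mul, ← sum_const]
    apply sum_le_sum
    intro a ha
    apply pow_le_pow_left₀ (by positivity)
    rw [div_le_iff₀ hQ0]
    exact (hA a ha).le
  have hEn : (0 : ℝ) ≤ En p v := Nat.cast_nonneg _
  have h3 : 6 * (((2 * p * N + 1 : ℕ) : ℝ) + N) * En p v ≤ 12 * (p + 1) * (X * Y ^ (2 * p)) := by
    have h4 : 6 * (((2 * p * N + 1 : ℕ) : ℝ) + N) ≤ 12 * (p + 1) * N := by
      push_cast
      nlinarith
    calc 6 * (((2 * p * N + 1 : ℕ) : ℝ) + N) * En p v ≤ 12 * (p + 1) * N * En p v :=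
          mul_le_mul_of_nonneg_right h4 hEn
      _ = 12 * (p + 1) * (En p v * N) := by ring
      _ ≤ _ := mul_le_mul_of_nonneg_left hE (by positivity)
  have h4 : (A.card : ℝ) * (Y / Q) ^ (2 * p) ≤ 12 * (p + 1) * (X * Y ^ (2 * p)) := h2.trans (h1.trans h3)
  have hYp : 0 < Y ^ (2 * p) := by positivity
  have hQp : 0 < Q ^ (2 * p) := by positivity
  rw [div_pow, mul_div_assoc', div_le_iff₀ hQp] at h4
  have h5 : (A.card : ℝ) * Y ^ (2 * p) ≤ (12 * (p + 1) * X * Q ^ (2 * p)) * Y ^ (2 * p) := by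
    calc (A.card : ℝ) * Y ^ (2 * p) ≤ 12 * (p + 1) * (X * Y ^ (2 * p)) * Q ^ (2 * p) := h4
      _ = _ := by ring
  exact le_of_mul_le_mul_right h5 hYp

/-- Every interval of length `X` contains at most `Y` members of `E`. -/
def Few (E : Set ℤ) (X Y : ℝ) : Prop :=
  ∀ x : ℤ, ({a : ℤ | a ∈ E ∧ x ≤ a ∧ (a : ℝ) ≤ x + X}.ncard : ℝ) ≤ Y

open Classical in
/-- the number of the exceptional factors -/
lemma few_all {s : ℕ} (θ : Fin s → ℝ) (D : ℕ) (c₀ : ℝ) (hc₀ : 0 < c₀) (hθ : ∀ (h : Fin s → ℤ) (n : ℤ), h ≠ 0 →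
    ∀ H : ℝ, 1 ≤ H → (∀ j, |(h j : ℝ)| ≤ H) → c₀ ≤ |∑ j, (h j : ℝ) * θ j - n| * H ^ D)
    (p N : ℕ) (hN : 1 ≤ N) (Q : ℕ) (W : ℝ) (hQ : 1 ≤ Q) (hW : 1 ≤ W) (hQW : (Q * W) ^ D ≤ c₀ * N)
    (Z : Type) [Fintype Z] (v : Z → ℤ) (hv : ∀ z, |v z| ≤ N) (γ : Z → Fin s → ℝ)
    (X : ℝ) (hX : 0 ≤ X) (hE : (En p v : ℝ) * N ≤ X * (Fintype.card Z : ℝ) ^ (2 * p)) :
    ∃ E : Set ℤ, Few E W ((3 * Q) ^ s * (12 * (p + 1) * X * (Q : ℝ) ^ (2 * p))) ∧
      ∀ a : ℤ, a ∉ E → ∀ (b : Fin s → ℝ) (h : Fin s → ℤ), h ≠ 0 → (∀ j, |(h j : ℝ)| ≤ Q) →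
        ‖∑ z, e (∑ j, (h j : ℝ) * (θ j * (a * v z) + γ z j + b j))‖ * Q ≤ Fintype.card Z := by
  have hQR : (1 : ℝ) ≤ Q := by exact_mod_cast hQ
  obtain ⟨S, hS⟩ : ∃ S : (Fin s → ℤ) → ℤ → ℝ, S = fun (h : Fin s → ℤ) (a : ℤ) => ‖∑ z, e (∑ j, (h j : ℝ) * γ z j) *
    e ((∑ j, (h j : ℝ) * θ j) * a * v z)‖ := ⟨_, rfl⟩
  obtain ⟨E, hEd⟩ : ∃ E : Set ℤ, E = {a | ∃ h : Fin s → ℤ, h ≠ 0 ∧ (∀ j, |(h j : ℝ)| ≤ Q) ∧
    (Fintype.card Z : ℝ) < S h a * Q} := ⟨_, rfl⟩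
  refine ⟨E, ?_, ?_⟩
  · intro x
    obtain ⟨I, hI⟩ : ∃ I : Finset ℤ, I = (Icc x (x + ⌊W⌋)).filter fun a => a ∈ E := ⟨_, rfl⟩
    have hset : {a : ℤ | a ∈ E ∧ x ≤ a ∧ (a : ℝ) ≤ x + W} ⊆ (I : Set ℤ) := by
      rintro a ⟨h1, h2, h3⟩
      rw [hI, coe_filter]
      refine ⟨?_, h1⟩
      rw [mem_Icc]
      refine ⟨h2, ?_⟩
      have h4 : a - x ≤ ⌊W⌋ := by
        rw [Int.le_floor]
        push_cast
        linarith
      linarith
    have h1 : ({a : ℤ | a ∈ E ∧ x ≤ a ∧ (a : ℝ) ≤ x + W}.ncard : ℝ) ≤ I.card := by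
      have := Set.ncard_le_ncard hset (Finset.finite_toSet _)
      rw [Set.ncard_coe_finset] at this
      exact_mod_cast this
    refine h1.trans ?_
    obtain ⟨Hs, hHs⟩ : ∃ Hs : Finset (Fin s → ℤ), Hs = Fintype.piFinset fun _ => Icc (-(Q : ℤ)) Q := ⟨_, rfl⟩
    have hHc : (Hs.card : ℝ) ≤ (3 * Q) ^ s := by
      rw [hHs, Fintype.card_piFinset]
      simp only [Int.card_Icc, prod_const, card_univ, Fintype.card_fin]
      have h2 : ((Q : ℤ) + 1 - -(Q : ℤ)).toNat = 2 * Q + 1 := by omega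
      rw [h2]
      push_cast
      apply pow_le_pow_left₀ (by positivity)
      linarith
    have hsub : I ⊆ (Hs.filter fun h => h ≠ 0).biUnion fun h => I.filter fun a => (Fintype.card Z : ℝ) < S h a * Q := by
      intro a ha
      have ha' := ha
      rw [hI, mem_filter, hEd] at ha'
      obtain ⟨-, h, h2, h3, h4⟩ := ha'
      rw [mem_biUnion]
      refine ⟨h, ?_, mem_filter.2 ⟨ha, h4⟩⟩
      rw [mem_filter, hHs, Fintype.mem_piFinset]
      refine ⟨fun j => ?_, h2⟩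
      rw [mem_Icc, ← abs_le]
      exact_mod_cast h3 j
    have hone : ∀ h ∈ Hs.filter (fun h => h ≠ 0), ((I.filter fun a => (Fintype.card Z : ℝ) < S h a * Q).card : ℝ) ≤
        12 * (p + 1) * X * (Q : ℝ) ^ (2 * p) := by
      intro h hh
      rw [mem_filter, hHs, Fintype.mem_piFinset] at hh
      obtain ⟨h2, h3⟩ := hh
      refine few_one θ D c₀ hc₀ hθ p N hN Q W hQR hW hQW Z v hv (fun z => e (∑ j, (h j : ℝ) * γ z j))
        (fun z => (norm_e _).le) X hX hE h h3 (fun j => ?_) _ ?_ ?_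
      · have h4 := h2 j
        rw [mem_Icc, ← abs_le] at h4
        exact_mod_cast h4
      · intro a ha b hb
        rw [mem_filter, hI, mem_filter, mem_Icc] at ha hb
        have h4 : |b - a| ≤ ⌊W⌋ := by
          rw [abs_le]
          constructor <;> linarith [ha.1.1.1, ha.1.1.2, hb.1.1.1, hb.1.1.2]
        have h5 : ((|b - a| : ℤ) : ℝ) ≤ (⌊W⌋ : ℝ) := by exact_mod_cast h4
        rw [← Int.cast_abs]
        exact h5.trans (Int.floor_le W)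
      · intro a ha
        rw [mem_filter] at ha
        have h4 := ha.2
        rw [hS] at h4
        exact h4
    have h2 : (I.card : ℝ) ≤ ∑ h ∈ Hs.filter (fun h => h ≠ 0),
        ((I.filter fun a => (Fintype.card Z : ℝ) < S h a * Q).card : ℝ) := by
      exact_mod_cast (card_le_card hsub).trans card_biUnion_le
    refine h2.trans ((sum_le_sum hone).trans ?_)
    rw [sum_const, nsmul_eq_mul]
    apply mul_le_mul_of_nonneg_right _ (by positivity)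
    refine le_trans ?_ hHc
    exact_mod_cast card_filter_le _ _
  · intro a ha b h hh hhQ
    by_contra hcon
    push Not at hcon
    apply ha
    rw [hEd]
    refine ⟨h, hh, hhQ, ?_⟩
    rw [hS]
    have h1 : ∑ z, e (∑ j, (h j : ℝ) * (θ j * (a * v z) + γ z j + b j)) =
        e (∑ j, (h j : ℝ) * b j) * ∑ z, e (∑ j, (h j : ℝ) * γ z j) * e ((∑ j, (h j : ℝ) * θ j) * a * v z) := by
      rw [mul_sum]
      refine sum_congr rfl fun z _ => ?_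
      rw [← e_add, ← e_add]
      congr 1
      rw [sum_mul, sum_mul, ← sum_add_distrib, ← sum_add_distrib]
      refine sum_congr rfl fun j _ => ?_
      ring
    rw [h1, norm_mul, norm_e, one_mul] at hcon
    exact hcon

end Pool.Agent.H96.FP
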