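import Pool.Agent.H96.FP.C

set_option autoImplicit false

/-! # Properties given by fractional parts, in the families `a v + g + b` -/

namespace Pool.Agent.H96.FP

open Finset
open Pool.Agent.H469R2.NK (e norm_e e_add e_zero)
open Pool.Agent.TH935.GF (En)
open Pool.Agent.Q29.Eqd (ev_rpow)

lemma ww_pos (s : ℕ) : 1 ≤ ww s := by
  unfold ww
  omega

open Classical in
/-- **Properties given by fractional parts, in the families `a v + g + b`.** -/
theorem families {s k : ℕ} (hs : 1 ≤ s) (θ : Fin s → ℝ) (D : ℕ) (hθ : Dio θ D) (c : ℝ) (hc0 : 0 < c)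
    (hc : c * D < 1) (p : ℕ) (δ : ℝ) (hδ : 0 < δ) (D₀ : ℕ) :
    ∃ η κ : ℝ, 0 < η ∧ 0 < κ ∧ ∃ N₀ : ℕ, ∀ N : ℕ, N₀ ≤ N → ∀ (Z : Type) [Fintype Z] (v g : Z → ℤ),
      (∀ z, |v z| ≤ N) → (En p v : ℝ) * N ≤ (N : ℝ) ^ η * (Fintype.card Z : ℝ) ^ (2 * p) →
      ∃ E : Set ℤ, Few E ((N : ℝ) ^ c) ((N : ℝ) ^ δ) ∧ ∀ a : ℤ, a ∉ E → ∀ b : ℤ,
        ∀ (γ : Fin s → ℝ) (A B : Fin s → Fin k → ℝ), (∀ j i, 0 ≤ A j i) → (∀ j i, A j i ≤ B j i) →
        (∀ j i, B j i ≤ 1) → (∀ j i i', i < i' → B j i ≤ A j i') → (∀ j, ∑ i, (B j i - A j i) ≤ 1) →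
        ∀ P : ℕ → Prop, (∀ m : ℕ, 0 < m → (∀ j, ∃ i, A j i < Int.fract (θ j * m + γ j) ∧
          Int.fract (θ j * m + γ j) < B j i) → m < D₀ ∨ P m) →
        (((univ : Finset Z).filter fun z => 0 < a * v z + g z + b ∧ ¬ P (a * v z + g z + b).toNat).card : ℝ) ≤
          (1 - ∏ j, ∑ i, (B j i - A j i) + (N : ℝ) ^ (-κ)) * Fintype.card Z := by
  obtain ⟨c₀, hc₀, hθ⟩ := hθ
  obtain ⟨w, hw⟩ : ∃ w : ℕ, w = ww s := ⟨_, rfl⟩
  have hw1 : 1 ≤ w := by rw [hw]; exact ww_pos s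
  have hwR : (1 : ℝ) ≤ w := by exact_mod_cast hw1
  obtain ⟨δ', hδ'⟩ : ∃ δ' : ℝ, δ' = (1 - c * D) / 2 := ⟨_, rfl⟩
  have hδ'0 : 0 < δ' := by rw [hδ']; linarith
  obtain ⟨m₀, hm₀⟩ : ∃ m₀ : ℝ, m₀ = w * (s + 2 * p) + w * D + 1 := ⟨_, rfl⟩
  have hwD : (0 : ℝ) ≤ w * D := by positivity
  have hwsp : (0 : ℝ) ≤ w * (s + 2 * p) := by positivity
  have hm₀1 : 1 ≤ m₀ := by rw [hm₀]; linarith
  obtain ⟨κ₁, hκ₁⟩ : ∃ κ₁ : ℝ, κ₁ = min (δ / 4) δ' / m₀ := ⟨_, rfl⟩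
  have hmin : 0 < min (δ / 4) δ' := lt_min (by positivity) hδ'0
  have hκ₁0 : 0 < κ₁ := by rw [hκ₁]; positivity
  have hκm : κ₁ * m₀ = min (δ / 4) δ' := by rw [hκ₁]; field_simp
  have hκa : κ₁ * (w * (s + 2 * p)) ≤ δ / 4 := by
    calc κ₁ * (w * (s + 2 * p)) ≤ κ₁ * m₀ := mul_le_mul_of_nonneg_left (by rw [hm₀]; linarith) hκ₁0.le
      _ ≤ _ := by rw [hκm]; exact min_le_left _ _
  have hκb : κ₁ * (w * D) ≤ δ' := by
    calc κ₁ * (w * D) ≤ κ₁ * m₀ := mul_le_mul_of_nonneg_left (by rw [hm₀]; linarith) hκ₁0.le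
      _ ≤ _ := by rw [hκm]; exact min_le_right _ _
  obtain ⟨N₁, hN₁1, hN₁⟩ := ev_rpow κ₁ 2 hκ₁0
  obtain ⟨N₂, hN₂1, hN₂⟩ := ev_rpow δ' (1 / c₀) hδ'0
  obtain ⟨N₃, hN₃1, hN₃⟩ := ev_rpow (δ / 2) (3 ^ s * (12 * (p + 1))) (by positivity)
  obtain ⟨N₄, hN₄1, hN₄⟩ := ev_rpow (κ₁ / 2) (2 * ((2 * s * k + 3 * s + 5) + D₀ * (3 * s + 6))) (by positivity)
  refine ⟨δ / 4, κ₁ / 2, by positivity, by positivity, N₁ + N₂ + N₃ + N₄, fun N hN Z _ v g hv hE => ?_⟩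
  have h1 := hN₁ N (by omega)
  have h2 := hN₂ N (by omega)
  have h3 := hN₃ N (by omega)
  have h4 := hN₄ N (by omega)
  have hNpos : 1 ≤ N := by omega
  have hN1 : (1 : ℝ) ≤ N := by exact_mod_cast hNpos
  have hN0 : (0 : ℝ) < N := by linarith
  obtain ⟨Y, hY⟩ : ∃ Y : ℝ, Y = (N : ℝ) ^ κ₁ := ⟨_, rfl⟩
  rw [← hY] at h1
  have hY0 : 0 < Y := by linarith
  obtain ⟨T, hT⟩ : ∃ T : ℕ, T = ⌊Y⌋₊ := ⟨_, rfl⟩
  have hT2 : 2 ≤ T := by
    rw [hT]
    exact Nat.le_floor (by exact_mod_cast h1)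
  have hTY : (T : ℝ) ≤ Y := by
    rw [hT]
    exact Nat.floor_le hY0.le
  have hTY2 : Y / 2 ≤ T := by
    have h5 := Nat.lt_floor_add_one Y
    rw [← hT] at h5
    linarith
  have hT0 : (0 : ℝ) < T := by
    have : 0 < T := by omega
    exact_mod_cast this
  obtain ⟨Q, hQ⟩ : ∃ Q : ℕ, Q = T ^ w := ⟨_, rfl⟩
  have hQR : (Q : ℝ) = (T : ℝ) ^ w := by rw [hQ]; push_cast; rfl
  have hQ1 : 1 ≤ Q := by rw [hQ]; exact Nat.one_le_pow _ _ (by omega)
  have hQY : (Q : ℝ) ≤ (N : ℝ) ^ (κ₁ * w) := by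
    rw [hQR, Real.rpow_mul hN0.le, Real.rpow_natCast, ← hY]
    exact pow_le_pow_left₀ hT0.le hTY w
  have hQ0 : (0 : ℝ) < Q := by exact_mod_cast hQ1
  have hW1 : 1 ≤ (N : ℝ) ^ c := Real.one_le_rpow hN1 hc0.le
  have hQW : ((Q : ℝ) * (N : ℝ) ^ c) ^ D ≤ c₀ * N := by
    have h5 : ((Q : ℝ) * (N : ℝ) ^ c) ^ D ≤ (N : ℝ) ^ (1 - δ') := by
      calc ((Q : ℝ) * (N : ℝ) ^ c) ^ D ≤ ((N : ℝ) ^ (κ₁ * w) * (N : ℝ) ^ c) ^ D :=
            pow_le_pow_left₀ (by positivity) (mul_le_mul_of_nonneg_right hQY (by positivity)) D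
        _ = (N : ℝ) ^ ((κ₁ * w + c) * D) := by
            rw [← Real.rpow_add hN0, ← Real.rpow_natCast, ← Real.rpow_mul hN0.le]
        _ ≤ _ := by
            apply Real.rpow_le_rpow_of_exponent_le hN1
            have h6 : (κ₁ * w + c) * D = κ₁ * (w * D) + c * D := by ring
            have h7 : c * D = 1 - 2 * δ' := by rw [hδ']; ring
            rw [h6, h7]
            linarith
    refine h5.trans ?_
    have h6 : (N : ℝ) ^ (1 - δ') * (N : ℝ) ^ δ' = N := by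
      rw [← Real.rpow_add hN0]
      simp
    have h7 : 0 ≤ (N : ℝ) ^ (1 - δ') := by positivity
    have h8 : (N : ℝ) ^ (1 - δ') * (1 / c₀) ≤ N := by
      calc (N : ℝ) ^ (1 - δ') * (1 / c₀) ≤ (N : ℝ) ^ (1 - δ') * (N : ℝ) ^ δ' := mul_le_mul_of_nonneg_left h2 h7
        _ = N := h6
    rw [mul_one_div, div_le_iff₀ hc₀] at h8
    linarith
  obtain ⟨E, hE1, hE2⟩ := few_all θ D c₀ hc₀ hθ p N hNpos Q ((N : ℝ) ^ c) hQ1 hW1 hQW Z v hv
    (fun z j => θ j * g z) ((N : ℝ) ^ (δ / 4)) (by positivity) hE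
  refine ⟨E, ?_, ?_⟩
  · intro x
    refine (hE1 x).trans ?_
    calc (3 * (Q : ℝ)) ^ s * (12 * (p + 1) * (N : ℝ) ^ (δ / 4) * (Q : ℝ) ^ (2 * p))
        = (3 ^ s * (12 * (p + 1))) * (N : ℝ) ^ (δ / 4) * (Q : ℝ) ^ (s + 2 * p) := by
          rw [mul_pow, pow_add]
          ring
      _ ≤ (N : ℝ) ^ (δ / 2) * (N : ℝ) ^ (δ / 4) * (N : ℝ) ^ (δ / 4) := by
          apply mul_le_mul (mul_le_mul_of_nonneg_right h3 (by positivity)) _ (by positivity) (by positivity)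
          calc (Q : ℝ) ^ (s + 2 * p) ≤ ((N : ℝ) ^ (κ₁ * w)) ^ (s + 2 * p) := pow_le_pow_left₀ hQ0.le hQY _
            _ = (N : ℝ) ^ (κ₁ * (w * (s + 2 * p))) := by
                rw [← Real.rpow_natCast, ← Real.rpow_mul hN0.le]
                congr 1
                push_cast
                ring
            _ ≤ _ := Real.rpow_le_rpow_of_exponent_le hN1 hκa
      _ = (N : ℝ) ^ δ := by
          rw [← Real.rpow_add hN0, ← Real.rpow_add hN0]
          congr 1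
          ring
  · intro a ha b γ A B hA hAB hB hdis hsum P hP
    obtain ⟨y, hy⟩ : ∃ y : Z → Fin s → ℝ, y = fun z j => θ j * ((a * v z + g z + b : ℤ) : ℝ) + γ j := ⟨_, rfl⟩
    have hexp : ∀ h : Fin s → ℤ, h ≠ 0 → (∀ j, |(h j : ℝ)| ≤ (T : ℝ) ^ ww s) →
        ‖∑ z, e (∑ j, (h j : ℝ) * y z j)‖ * (T : ℝ) ^ ww s ≤ Fintype.card Z := by
      intro h hh hb
      rw [← hw, ← hQR] at hb ⊢
      have h5 := hE2 a ha (fun j => θ j * b + γ j) h hh hb
      have h6 : ∑ z, e (∑ j, (h j : ℝ) * (θ j * (a * v z) + θ j * g z + (θ j * b + γ j))) =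
          ∑ z, e (∑ j, (h j : ℝ) * y z j) := by
        refine sum_congr rfl fun z _ => ?_
        congr 1
        refine sum_congr rfl fun j _ => ?_
        rw [hy]
        push_cast
        ring
      rw [h6] at h5
      exact h5
    obtain ⟨U, hU⟩ : ∃ U : Finset Z, U = (univ : Finset Z).filter fun z => 0 < a * v z + g z + b ∧
      D₀ ≤ (a * v z + g z + b).toNat ∧ ¬ P (a * v z + g z + b).toNat := ⟨_, rfl⟩
    have hU1 := box_family hs T hT2 Z y hexp A B hA hAB hB hdis hsum U (by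
      intro z hz hzU
      rw [hU, mem_filter] at hzU
      obtain ⟨-, h5, h6, h7⟩ := hzU
      have h8 : (((a * v z + g z + b).toNat : ℕ) : ℝ) = ((a * v z + g z + b : ℤ) : ℝ) := by
        have : (((a * v z + g z + b).toNat : ℕ) : ℤ) = a * v z + g z + b := Int.toNat_of_nonneg h5.le
        exact_mod_cast congrArg (fun y : ℤ => (y : ℝ)) this
      have h9 := hP (a * v z + g z + b).toNat (by omega) (by
        intro j
        have h10 := hz j
        rw [hy] at h10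
        rw [h8]
        exact h10)
      rcases h9 with h9 | h9
      · omega
      · exact h7 h9)
    obtain ⟨V, hV⟩ : ∃ V : ℕ → Finset Z, V = fun m : ℕ => (univ : Finset Z).filter
      fun z => a * v z + g z + b = (m : ℤ) := ⟨_, rfl⟩
    have hV1 : ∀ m ∈ range D₀, ((V m).card : ℝ) ≤ (3 * s + 6) * Fintype.card Z / T := by
      intro m _
      refine point_family hs T hT2 Z y hexp (fun j => θ j * m + γ j) (V m) ?_
      intro z hz
      rw [hV, mem_filter] at hz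
      funext j
      rw [hy]
      simp only
      rw [hz.2]
      push_cast
      rfl
    have hsub : (univ : Finset Z).filter (fun z => 0 < a * v z + g z + b ∧ ¬ P (a * v z + g z + b).toNat) ⊆
        U ∪ (range D₀).biUnion V := by
      intro z hz
      rw [mem_filter] at hz
      obtain ⟨-, h5, h6⟩ := hz
      rw [mem_union]
      by_cases h7 : D₀ ≤ (a * v z + g z + b).toNat
      · left
        rw [hU, mem_filter]
        exact ⟨mem_univ _, h5, h7, h6⟩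
      · right
        rw [mem_biUnion]
        refine ⟨(a * v z + g z + b).toNat, mem_range.2 (by omega), ?_⟩
        rw [hV, mem_filter]
        exact ⟨mem_univ _, (Int.toNat_of_nonneg h5.le).symm⟩
    obtain ⟨M, hM⟩ : ∃ M : ℝ, M = Fintype.card Z := ⟨_, rfl⟩
    have hM0 : 0 ≤ M := by rw [hM]; exact Nat.cast_nonneg _
    rw [← hM] at hU1 hV1 ⊢
    have h5 : (((univ : Finset Z).filter fun z => 0 < a * v z + g z + b ∧ ¬ P (a * v z + g z + b).toNat).card : ℝ) ≤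
        U.card + D₀ * ((3 * s + 6) * M / T) := by
      have h6 : (((univ : Finset Z).filter fun z => 0 < a * v z + g z + b ∧ ¬ P (a * v z + g z + b).toNat).card : ℝ) ≤
          U.card + ∑ m ∈ range D₀, ((V m).card : ℝ) := by
        have h7 := (card_le_card hsub).trans (card_union_le _ _)
        have h8 : ((range D₀).biUnion V).card ≤ ∑ m ∈ range D₀, (V m).card := card_biUnion_le
        have h9 := h7.trans (Nat.add_le_add_left h8 _)
        exact_mod_cast h9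
      refine h6.trans ?_
      have h7 := sum_le_sum hV1
      rw [sum_const, card_range, nsmul_eq_mul] at h7
      linarith
    refine h5.trans ?_
    have h6 : (2 * s * k + 3 * s + 5) * M / T + D₀ * ((3 * s + 6) * M / T) ≤ (N : ℝ) ^ (-(κ₁ / 2)) * M := by
      have h7 : (2 * s * k + 3 * s + 5) * M / T + D₀ * ((3 * s + 6) * M / T) =
          (((2 * s * k + 3 * s + 5) + D₀ * (3 * s + 6)) / T) * M := by
        field_simp
      rw [h7]
      apply mul_le_mul_of_nonneg_right _ hM0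
      rw [div_le_iff₀ hT0]
      have h8 : (N : ℝ) ^ (-(κ₁ / 2)) * Y = (N : ℝ) ^ (κ₁ / 2) := by
        rw [hY, ← Real.rpow_add hN0]
        congr 1
        ring
      have h9 : (N : ℝ) ^ (-(κ₁ / 2)) * (Y / 2) ≤ (N : ℝ) ^ (-(κ₁ / 2)) * T :=
        mul_le_mul_of_nonneg_left hTY2 (by positivity)
      have h10 : (N : ℝ) ^ (-(κ₁ / 2)) * (Y / 2) = (N : ℝ) ^ (κ₁ / 2) / 2 := by
        rw [← h8]
        ring
      rw [h10] at h9
      linarith
    linarith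

end Pool.Agent.H96.FP
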