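import Pool.Agent.H96.FP.D
import Pool.Agent.H46.SD.Seq

set_option autoImplicit false

/-! # Square roots -/

namespace Pool.Agent.H96.FP

open Finset
open Pool.Agent.TH935.GF (En)

theorem dio_sqrt {s : ℕ} (σ : Fin s → ℕ) (hsf : ∀ j, Squarefree (σ j)) (h1 : ∀ j, σ j ≠ 1)
    (hinj : Function.Injective σ) (u : Fin s → ℕ) (hu : ∀ j, 1 ≤ u j) (t : ℕ) (ht : 1 ≤ t) :
    ∃ D : ℕ, Dio (fun j => u j * Real.sqrt (σ j) / t) D := by
  obtain ⟨c, hc, D, h⟩ := Pool.Agent.Q54.FM.liou_vec σ hsf h1 hinj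
  obtain ⟨V, hV⟩ : ∃ V : ℝ, V = ∑ j, (u j * Real.sqrt (σ j) / t : ℝ) := ⟨_, rfl⟩
  have hV0 : 0 ≤ V := by
    rw [hV]
    exact sum_nonneg fun i _ => by positivity
  have htR : (1 : ℝ) ≤ t := by exact_mod_cast ht
  obtain ⟨U, hU⟩ : ∃ U : ℝ, U = ∑ j, (u j : ℝ) := ⟨_, rfl⟩
  have hUj : ∀ j, (u j : ℝ) ≤ U := by
    intro j
    rw [hU]
    exact single_le_sum (f := fun j => (u j : ℝ)) (fun i _ => by positivity) (mem_univ j)
  have hU0 : 0 ≤ U := by
    rw [hU]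
    exact sum_nonneg fun i _ => by positivity
  obtain ⟨C, hC⟩ : ∃ C : ℝ, C = t * (V + 1) + U + 1 := ⟨_, rfl⟩
  have hC1 : 1 ≤ C := by
    rw [hC]
    have : 0 ≤ t * (V + 1) := by positivity
    linarith
  have hC0 : 0 < C := by linarith
  refine ⟨D, min 1 (c / (t * C ^ D)), lt_min one_pos (by positivity), fun v n hv H hH hvH => ?_⟩
  obtain ⟨F, hF⟩ : ∃ F : ℝ, F = |∑ j, (v j : ℝ) * (u j * Real.sqrt (σ j) / t) - n| := ⟨_, rfl⟩
  rw [← hF]
  have hF0 : 0 ≤ F := by rw [hF]; exact abs_nonneg _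
  have hHD : 1 ≤ H ^ D := one_le_pow₀ hH
  have hH0 : 0 < H := by linarith
  rcases le_or_gt 1 F with hF1 | hF1
  · refine (min_le_left _ _).trans ?_
    calc (1 : ℝ) ≤ F * 1 := by linarith
      _ ≤ F * H ^ D := mul_le_mul_of_nonneg_left hHD hF0
  · refine (min_le_right _ _).trans ?_
    have hS : |∑ j, (v j : ℝ) * (u j * Real.sqrt (σ j) / t)| ≤ H * V := by
      refine (abs_sum_le_sum_abs _ _).trans ?_
      rw [hV, mul_sum]
      refine sum_le_sum fun j _ => ?_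
      rw [abs_mul, abs_of_nonneg (by positivity : (0 : ℝ) ≤ u j * Real.sqrt (σ j) / t)]
      exact mul_le_mul_of_nonneg_right (hvH j) (by positivity)
    have hn : |(n : ℝ)| ≤ H * V + 1 := by
      have h2 : |(n : ℝ)| ≤ |∑ j, (v j : ℝ) * (u j * Real.sqrt (σ j) / t)| + F := by
        rw [hF]
        have h3 : (n : ℝ) = ∑ j, (v j : ℝ) * (u j * Real.sqrt (σ j) / t) -
          (∑ j, (v j : ℝ) * (u j * Real.sqrt (σ j) / t) - n) := by ring
        conv_lhs => rw [h3]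
        exact abs_sub _ _
      linarith
    have h2 := h (fun j => v j * u j) (t * n) (by
      intro h0
      apply hv
      funext j
      have h3 := congrFun h0 j
      have h4 : (u j : ℤ) ≠ 0 := by
        have := hu j
        omega
      exact (mul_eq_zero.1 h3).resolve_right h4) (C * H) (one_le_mul_of_one_le_of_one_le hC1 hH) (by
      intro j
      push_cast
      rw [abs_mul, Nat.abs_cast]
      calc |(v j : ℝ)| * u j ≤ H * U := mul_le_mul (hvH j) (hUj j) (Nat.cast_nonneg _) hH0.le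
        _ ≤ C * H := by
          rw [mul_comm C H]
          apply mul_le_mul_of_nonneg_left _ hH0.le
          rw [hC]
          have : 0 ≤ t * (V + 1) := by positivity
          linarith) (by
      push_cast
      rw [abs_mul, Nat.abs_cast]
      calc (t : ℝ) * |(n : ℝ)| ≤ t * (H * V + 1) := mul_le_mul_of_nonneg_left hn (by linarith)
        _ ≤ t * (V + 1) * H := by nlinarith
        _ ≤ C * H := by
          apply mul_le_mul_of_nonneg_right _ hH0.le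
          rw [hC]
          linarith)
    have h3 : ∑ j, (((v j * u j : ℤ)) : ℝ) * Real.sqrt (σ j) - ((t * n : ℤ) : ℝ) =
        t * (∑ j, (v j : ℝ) * (u j * Real.sqrt (σ j) / t) - n) := by
      rw [mul_sub, Finset.mul_sum]
      congr 1
      · refine sum_congr rfl fun j _ => ?_
        push_cast
        field_simp
      · push_cast
        ring
    rw [h3, abs_mul, Nat.abs_cast, ← hF] at h2
    rw [div_le_iff₀ (by positivity)]
    calc c ≤ t * F * (C * H) ^ D := h2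
      _ = F * H ^ D * (t * C ^ D) := by rw [mul_pow]; ring

theorem dio_one {r t : ℕ} (hr : ¬ IsSquare r) (ht : 1 ≤ t) : Dio (fun _ : Fin 1 => Real.sqrt r / t) 1 := by
  have htR : (1 : ℝ) ≤ t := by exact_mod_cast ht
  have hr0 : 0 < r := by
    rcases Nat.eq_zero_or_pos r with h | h
    · exact absurd ⟨0, by rw [h]⟩ hr
    · exact h
  obtain ⟨q, hq⟩ : ∃ q : ℝ, q = Real.sqrt r := ⟨_, rfl⟩
  have hq0 : 0 ≤ q := by rw [hq]; positivity
  have hqq : q * q = r := by rw [hq]; exact Real.mul_self_sqrt (Nat.cast_nonneg _)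
  refine ⟨1 / (t * (2 * q + t)), by positivity, fun v n hv H hH hvH => ?_⟩
  obtain ⟨x, hx⟩ : ∃ x : ℤ, x = v 0 := ⟨_, rfl⟩
  have hx0 : x ≠ 0 := by
    intro h0
    apply hv
    funext j
    rw [Fin.eq_zero j, ← hx, h0]
    rfl
  have hxH : |(x : ℝ)| ≤ H := by rw [hx]; exact hvH 0
  rw [Fin.sum_univ_one, ← hx, ← hq, pow_one]
  have hne : (x : ℤ) ^ 2 * r ≠ (t * n) ^ 2 := by
    intro h0
    apply hr
    have h1 : (x.natAbs) ^ 2 * r = (t * n.natAbs) ^ 2 := by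
      have h2 : ((x.natAbs ^ 2 * r : ℕ) : ℤ) = (((t * n.natAbs) ^ 2 : ℕ) : ℤ) := by
        push_cast
        rw [sq_abs, mul_pow, sq_abs, ← mul_pow]
        exact h0
      exact_mod_cast h2
    have h2 : x.natAbs ^ 2 ∣ (t * n.natAbs) ^ 2 := ⟨r, h1.symm⟩
    have h3 : x.natAbs ∣ t * n.natAbs := (Nat.pow_dvd_pow_iff (by norm_num)).1 h2
    obtain ⟨k, hk⟩ := h3
    refine ⟨k, ?_⟩
    rw [hk, mul_pow] at h1
    have h4 : 0 < x.natAbs ^ 2 := by
      have := Int.natAbs_pos.2 hx0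
      positivity
    have h5 := Nat.eq_of_mul_eq_mul_left h4 h1
    rw [h5]
    ring
  have h1 : (1 : ℝ) ≤ |((x : ℝ) * q - t * n) * (x * q + t * n)| := by
    have h2 : ((x : ℝ) * q - t * n) * (x * q + t * n) = (((x : ℤ) ^ 2 * r - (t * n) ^ 2 : ℤ) : ℝ) := by
      push_cast
      rw [← hqq]
      ring
    rw [h2]
    have h3 : 1 ≤ |(x : ℤ) ^ 2 * r - (t * n) ^ 2| := Int.one_le_abs (sub_ne_zero.2 hne)
    exact_mod_cast h3
  rw [abs_mul] at h1
  obtain ⟨F, hF⟩ : ∃ F : ℝ, F = |(x : ℝ) * (q / t) - n| := ⟨_, rfl⟩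
  have hF0 : 0 ≤ F := by rw [hF]; exact abs_nonneg _
  have h2 : |(x : ℝ) * q - t * n| = t * F := by
    have h3 : (x : ℝ) * q - t * n = t * (x * (q / t) - n) := by field_simp
    rw [h3, abs_mul, Nat.abs_cast, hF]
  rw [h2] at h1
  rw [← hF]
  have hH0 : 0 < H := by linarith
  have hx1 : (1 : ℝ) ≤ |(x : ℝ)| := by
    have := Int.one_le_abs hx0
    exact_mod_cast this
  rcases le_or_gt 1 F with hF1 | hF1
  · rw [div_le_iff₀ (by positivity)]
    have h3 : 1 ≤ F * H := one_le_mul_of_one_le_of_one_le hF1 hH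
    have h4 : (1 : ℝ) ≤ t * (2 * q + t) := by nlinarith
    exact one_le_mul_of_one_le_of_one_le h3 h4
  · have h3 : |(x : ℝ) * q + t * n| ≤ (2 * q + t) * H := by
      have h4 : (x : ℝ) * q + t * n = 2 * (x * q) - (x * q - t * n) := by ring
      rw [h4]
      refine (abs_sub _ _).trans ?_
      rw [h2, abs_mul, abs_mul, abs_of_nonneg hq0]
      norm_num
      have h5 : |(x : ℝ)| * q ≤ H * q := mul_le_mul_of_nonneg_right hxH hq0
      nlinarith
    have h4 : 1 ≤ t * F * ((2 * q + t) * H) :=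
      h1.trans (mul_le_mul_of_nonneg_left h3 (by positivity))
    rw [div_le_iff₀ (by positivity)]
    linarith

open Classical in
/-- `families` for square roots indexed by a finite set -/
theorem families_fin {k : ℕ} (T : Finset ℕ) (hT : T.Nonempty) (σ u : ℕ → ℕ) (hsf : ∀ r ∈ T, Squarefree (σ r))
    (h1 : ∀ r ∈ T, σ r ≠ 1) (hinj : ∀ r ∈ T, ∀ r' ∈ T, σ r = σ r' → r = r') (hu : ∀ r ∈ T, 1 ≤ u r)
    (t : ℕ) (ht : 1 ≤ t) :
    ∃ c : ℝ, 0 < c ∧ ∀ (p : ℕ) (δ : ℝ), 0 < δ → ∀ D₀ : ℕ,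
    ∃ η κ : ℝ, 0 < η ∧ 0 < κ ∧ ∃ N₀ : ℕ, ∀ N : ℕ, N₀ ≤ N → ∀ (Z : Type) [Fintype Z] (v g : Z → ℤ),
      (∀ z, |v z| ≤ N) → (En p v : ℝ) * N ≤ (N : ℝ) ^ η * (Fintype.card Z : ℝ) ^ (2 * p) →
      ∃ E : Set ℤ, Few E ((N : ℝ) ^ c) ((N : ℝ) ^ δ) ∧ ∀ a : ℤ, a ∉ E → ∀ b : ℤ,
        ∀ (γ : ℕ → ℝ) (A B : ℕ → Fin k → ℝ), (∀ r ∈ T, ∀ i, 0 ≤ A r i) → (∀ r ∈ T, ∀ i, A r i ≤ B r i) →
        (∀ r ∈ T, ∀ i, B r i ≤ 1) → (∀ r ∈ T, ∀ i i', i < i' → B r i ≤ A r i') →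
        (∀ r ∈ T, ∑ i, (B r i - A r i) ≤ 1) →
        ∀ P : ℕ → Prop, (∀ m : ℕ, 0 < m → (∀ r ∈ T, ∃ i, A r i < Int.fract (u r * Real.sqrt (σ r) / t * m + γ r) ∧
          Int.fract (u r * Real.sqrt (σ r) / t * m + γ r) < B r i) → m < D₀ ∨ P m) →
        (((univ : Finset Z).filter fun z => 0 < a * v z + g z + b ∧ ¬ P (a * v z + g z + b).toNat).card : ℝ) ≤
          (1 - ∏ r ∈ T, ∑ i, (B r i - A r i) + (N : ℝ) ^ (-κ)) * Fintype.card Z := by
  obtain ⟨eq⟩ : Nonempty (Fin T.card ≃ {x // x ∈ T}) := ⟨T.equivFin.symm⟩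
  have hs : 1 ≤ T.card := Finset.card_pos.2 hT
  obtain ⟨D, hD⟩ := dio_sqrt (fun j => σ (eq j)) (fun j => hsf _ (eq j).2) (fun j => h1 _ (eq j).2)
    (fun i j hij => eq.injective (Subtype.ext (hinj _ (eq i).2 _ (eq j).2 hij))) (fun j => u (eq j))
    (fun j => hu _ (eq j).2) t ht
  refine ⟨1 / (2 * (D + 1)), by positivity, fun p δ hδ D₀ => ?_⟩
  have hc : (1 / (2 * (D + 1)) : ℝ) * D < 1 := by
    rw [div_mul_eq_mul_div, one_mul, div_lt_one (by positivity)]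
    have : (0 : ℝ) ≤ D := Nat.cast_nonneg D
    linarith
  obtain ⟨η, κ, hη, hκ, N₀, hN⟩ := families (k := k) hs _ D hD (1 / (2 * (D + 1))) (by positivity) hc p δ hδ D₀
  refine ⟨η, κ, hη, hκ, N₀, fun N hNN Z _ v g hv hE => ?_⟩
  obtain ⟨E, hE1, hE2⟩ := hN N hNN Z v g hv hE
  refine ⟨E, hE1, fun a ha b γ A B hA hAB hB hdis hsum P hP => ?_⟩
  have h2 := hE2 a ha b (fun j => γ (eq j)) (fun j => A (eq j)) (fun j => B (eq j)) (fun j => hA _ (eq j).2)
    (fun j => hAB _ (eq j).2) (fun j => hB _ (eq j).2) (fun j => hdis _ (eq j).2) (fun j => hsum _ (eq j).2) P (by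
    intro m hm hj
    apply hP m hm
    intro r hr
    have h3 := hj (eq.symm ⟨r, hr⟩)
    simp only [Equiv.apply_symm_apply] at h3
    exact h3)
  have h3 : ∏ j, ∑ i, (B (eq j) i - A (eq j) i) = ∏ r ∈ T, ∑ i, (B r i - A r i) := by
    rw [← Finset.prod_coe_sort T (fun r => ∑ i, (B r i - A r i))]
    exact Fintype.prod_equiv eq _ _ fun j => rfl
  rw [h3] at h2
  exact h2

end Pool.Agent.H96.FP
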