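import Pool.Agent.H96.FP.E
import Pool.Agent.H46.SD.Mul

set_option autoImplicit false

/-! # Good multiplicities and degrees in families -/

namespace Pool.Agent.H96.FP

open Finset
open Pool.Agent.TH935.GF (En)
open Pool.Agent.H46.SD Pool.Agent.Q54.FM
open Pool.Agent.Q29.Eqd (ev_rpow)

open Classical in
/-- `P` fails for at most the proportion `lam` of the members of the families `a v + g + b`. -/
def InFamilies (c lam : ℝ) (P : ℕ → Prop) : Prop :=
  ∀ (p : ℕ) (δ : ℝ), 0 < δ → ∃ η κ : ℝ, 0 < η ∧ 0 < κ ∧ ∃ N₀ : ℕ, ∀ N : ℕ, N₀ ≤ N →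
    ∀ (Z : Type) [Fintype Z] (v g : Z → ℤ), (∀ z, |v z| ≤ N) →
      (En p v : ℝ) * N ≤ (N : ℝ) ^ η * (Fintype.card Z : ℝ) ^ (2 * p) →
      ∃ E : Set ℤ, Few E ((N : ℝ) ^ c) ((N : ℝ) ^ δ) ∧ ∀ a : ℤ, a ∉ E → ∀ b : ℤ,
        (((univ : Finset Z).filter fun z => 0 < a * v z + g z + b ∧ ¬ P (a * v z + g z + b).toNat).card : ℝ) ≤
          (lam + (N : ℝ) ^ (-κ)) * Fintype.card Z

lemma InFamilies.mono {c lam lam' : ℝ} {P : ℕ → Prop} (h : InFamilies c lam P) (hl : lam ≤ lam') :
    InFamilies c lam' P := by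
  classical
  intro p δ hδ
  obtain ⟨η, κ, hη, hκ, N₀, h1⟩ := h p δ hδ
  refine ⟨η, κ, hη, hκ, N₀, fun N hN Z _ v g hv hE => ?_⟩
  obtain ⟨E, hE1, hE2⟩ := h1 N hN Z v g hv hE
  refine ⟨E, hE1, fun a ha b => (hE2 a ha b).trans ?_⟩
  apply mul_le_mul_of_nonneg_right _ (Nat.cast_nonneg _)
  linarith

lemma inFamilies_all {c lam : ℝ} {P : ℕ → Prop} (hl : 0 ≤ lam) (h : ∀ m : ℕ, 0 < m → P m) : InFamilies c lam P := by
  classical
  intro p δ hδ
  refine ⟨1, 1, one_pos, one_pos, 1, fun N hN Z _ v g hv hE => ⟨∅, ?_, fun a _ b => ?_⟩⟩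
  · intro x
    simp only [Set.mem_empty_iff_false, false_and]
    rw [Set.ofPred_false, Set.ncard_empty, Nat.cast_zero]
    positivity
  · have h0 : (univ : Finset Z).filter (fun z => 0 < a * v z + g z + b ∧ ¬ P (a * v z + g z + b).toNat) = ∅ := by
      rw [filter_eq_empty_iff]
      rintro z _ ⟨h1, h2⟩
      exact h2 (h _ (by omega))
    rw [h0, card_empty, Nat.cast_zero]
    positivity

lemma one_in {r t : ℕ} (hr : ¬ IsSquare r) (ht : 1 ≤ t) {c : ℝ} (hc0 : 0 < c) (hc1 : c < 1) {lam : ℝ} (hl0 : 0 ≤ lam)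
    (hl1 : lam ≤ 1) (γ : ℝ) (D₀ : ℕ) (P : ℕ → Prop)
    (h : ∀ m : ℕ, 0 < m → D₀ ≤ m → ¬ P m → Int.fract (Real.sqrt r / t * m + γ) ≤ lam) : InFamilies c lam P := by
  classical
  intro p δ hδ
  obtain ⟨η, κ, hη, hκ, N₀, h1⟩ := families (k := 1) le_rfl _ 1 (dio_one hr ht) c hc0 (by simpa using hc1) p δ hδ D₀
  refine ⟨η, κ, hη, hκ, N₀, fun N hN Z _ v g hv hE => ?_⟩
  obtain ⟨E, hE1, hE2⟩ := h1 N hN Z v g hv hE
  refine ⟨E, hE1, fun a ha b => ?_⟩
  have h2 := hE2 a ha b (fun _ => γ) (fun _ _ => lam) (fun _ _ => 1) (fun _ _ => hl0) (fun _ _ => hl1) (fun _ _ => le_rfl)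
    (fun _ i i' hii => by
      exfalso
      rw [Fin.eq_zero i, Fin.eq_zero i'] at hii
      exact lt_irrefl _ hii) (fun _ => by
      rw [Fin.sum_univ_one]
      linarith) P (by
    intro m hm hj
    by_contra hcon
    push Not at hcon
    obtain ⟨i, h3, h4⟩ := hj 0
    have h5 := h m hm hcon.1 hcon.2
    linarith)
  have e1 : ∏ _j : Fin 1, ∑ _i : Fin 1, (1 - lam) = 1 - lam := by simp
  rw [e1] at h2
  have e2 : 1 - (1 - lam) + (N : ℝ) ^ (-κ) = lam + (N : ℝ) ^ (-κ) := by ring
  rw [e2] at h2
  exact h2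

/-- **All numbers of points and all degrees at once.** -/
theorem all_mults (G : ℕ → ℕ → Prop) (hG : MIn G) :
    ∃ c : ℝ, 0 < c ∧ InFamilies c (1 - 1 / 2650) (fun m => ∀ r : ℕ, 10 ≤ r → G r m) := by
  classical
  obtain ⟨c, hc, h0⟩ := families_fin (k := 8) T0 ⟨10, by decide⟩ sg uu sg_sf (by decide) (by decide) (by decide) 3
      (by decide)
  refine ⟨c, hc, ?_⟩
  have hT : InFamilies c (1 - ∏ r ∈ T0, ∑ i, (bbm r i - aam r i)) (fun m => ∀ r : ℕ, 10 ≤ r → G r m) := by
    intro p δ hδ
    obtain ⟨η, κ, hη, hκ, N₀, h1⟩ := h0 p δ hδ 43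
    refine ⟨η, κ, hη, hκ, N₀, fun N hN Z _ v g hv hE => ?_⟩
    obtain ⟨E, hE1, hE2⟩ := h1 N hN Z v g hv hE
    refine ⟨E, hE1, fun a ha b => ?_⟩
    refine hE2 a ha b gm2 aam bbm ?_ ?_ ?_ ?_ ?_ (fun m => ∀ r : ℕ, 10 ≤ r → G r m) ?_
    · intro r hr i
      unfold aam
      split_ifs
      · fin_cases i <;> simp [am12] <;> norm_num
      · fin_cases i <;> simp [am18] <;> norm_num
      · exact lm2_nonneg r
      · norm_num
    · intro r hr i
      unfold aam bbm
      split_ifs with h12 h18 h0
      · fin_cases i <;> simp [am12, bm12] <;> norm_num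
      · fin_cases i <;> simp [am18, bm18] <;> norm_num
      · exact lm2_le hr h12 h18
      · norm_num
    · intro r hr i
      unfold bbm
      split_ifs with h12 h18
      · fin_cases i <;> simp [bm12] <;> norm_num
      · fin_cases i <;> simp [bm18] <;> norm_num
      · norm_num
    · intro r hr i i' hii
      unfold aam bbm
      split_ifs with h12 h18 h0
      · fin_cases i <;> fin_cases i' <;> simp [am12, bm12] at hii ⊢ <;> norm_num
      · fin_cases i <;> fin_cases i' <;> simp [am18, bm18] at hii ⊢ <;> norm_num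
      · exfalso
        rw [h0] at hii
        exact absurd hii (Fin.not_lt_zero i)
      · norm_num
    · intro r hr
      by_cases h12 : r = 12
      · rw [h12, summ12]
        norm_num
      by_cases h18 : r = 18
      · rw [h18, summ18]
        norm_num
      rw [summ_single h12 h18]
      linarith [lm2_nonneg r]
    intro m hm0 h
    by_cases hm43 : m < 43
    · exact Or.inl hm43
    right
    have hm : 43 ≤ m := by omega
    intro r hr
    have key : ∀ q ∈ T0, q ≠ 12 → q ≠ 18 → G q m := by
      intro q hq h12 h18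
      obtain ⟨i, h2, h3⟩ := h q hq
      have e := conv_eq h12 h18
      rw [Nat.cast_ofNat, e] at h2 h3
      refine goodm_single hG hm hq h12 h18 ?_
      unfold aam at h2
      unfold bbm at h3
      rw [if_neg h12, if_neg h18] at h2 h3
      by_cases hi : i = 0
      · rw [if_pos hi] at h2
        exact h2
      · rw [if_neg hi] at h2
        linarith
    have h4 : G 12 m ∧ G 27 m := by
      apply mclass12 hG hm
      obtain ⟨i, h2, h3⟩ := h 12 (by decide)
      refine ⟨i, ?_, ?_⟩
      · simpa [gm2, aam, uu, sg] using h2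
      · simpa [gm2, bbm, uu, sg] using h3
    have h6 : G 18 m ∧ G 32 m := by
      apply mclass18 hG hm
      obtain ⟨i, h2, h3⟩ := h 18 (by decide)
      refine ⟨i, ?_, ?_⟩
      · simpa [gm2, aam, uu, sg] using h2
      · simpa [gm2, bbm, uu, sg] using h3
    rcases Nat.lt_or_ge r 37 with hlt | hge
    · interval_cases r
      · exact key 10 (by decide) (by decide) (by decide)
      · exact key 11 (by decide) (by decide) (by decide)
      · exact h4.1
      · exact hG.2.2 13 m (by norm_num) hm0
      · exact key 14 (by decide) (by decide) (by decide)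
      · exact key 15 (by decide) (by decide) (by decide)
      · exact hG.2.2 16 m (Or.inr (Or.inr (Or.inr ⟨by norm_num, ⟨4, by norm_num⟩⟩))) hm0
      · exact key 17 (by decide) (by decide) (by decide)
      · exact h6.1
      · exact key 19 (by decide) (by decide) (by decide)
      · exact key 20 (by decide) (by decide) (by decide)
      · exact hG.2.2 21 m (by norm_num) hm0
      · exact key 22 (by decide) (by decide) (by decide)
      · exact key 23 (by decide) (by decide) (by decide)
      · exact key 24 (by decide) (by decide) (by decide)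
      · exact hG.2.2 25 m (Or.inr (Or.inr (Or.inr ⟨by norm_num, ⟨5, by norm_num⟩⟩))) hm0
      · exact key 26 (by decide) (by decide) (by decide)
      · exact h4.2
      · exact key 28 (by decide) (by decide) (by decide)
      · exact key 29 (by decide) (by decide) (by decide)
      · exact key 30 (by decide) (by decide) (by decide)
      · exact key 31 (by decide) (by decide) (by decide)
      · exact h6.2
      · exact key 33 (by decide) (by decide) (by decide)
      · exact key 34 (by decide) (by decide) (by decide)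
      · exact key 35 (by decide) (by decide) (by decide)
      · exact hG.2.2 36 m (Or.inr (Or.inr (Or.inr ⟨by norm_num, ⟨6, by norm_num⟩⟩))) hm0
    · exact hG.2.2 r m (Or.inl hge) hm0
  exact hT.mono (by linarith [prod_aam])

/-- **All numbers of points and all multiplicities at once.** -/
theorem all_degs (D : ℕ → ℕ → Prop) (hD : DIn D) :
    ∃ c : ℝ, 0 < c ∧ InFamilies c (1 - 101 / 400) (fun d => ∀ r : ℕ, 10 ≤ r → D r d) := by
  classical
  obtain ⟨c, hc, h0⟩ := families_fin (k := 8) T0 ⟨10, by decide⟩ sg u1 sg_sf (by decide) (by decide)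
      (fun r hr => (tab r hr).2.1) t0 (by decide)
  refine ⟨c, hc, ?_⟩
  have hT : InFamilies c (1 - ∏ r ∈ T0, ∑ i, (bb r i - aa r i)) (fun d => ∀ r : ℕ, 10 ≤ r → D r d) := by
    intro p δ hδ
    obtain ⟨η, κ, hη, hκ, N₀, h1⟩ := h0 p δ hδ 300
    refine ⟨η, κ, hη, hκ, N₀, fun N hN Z _ v g hv hE => ?_⟩
    obtain ⟨E, hE1, hE2⟩ := h1 N hN Z v g hv hE
    refine ⟨E, hE1, fun a ha b => ?_⟩
    refine hE2 a ha b g2 aa bb ?_ ?_ ?_ ?_ ?_ (fun d => ∀ r : ℕ, 10 ≤ r → D r d) ?_
    · intro r hr i
      unfold aa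
      split_ifs
      · fin_cases i <;> simp [a12] <;> norm_num
      · fin_cases i <;> simp [a18] <;> norm_num
      · exact l2_nonneg r
      · norm_num
    · intro r hr i
      unfold aa bb
      split_ifs with h12 h18 h0
      · fin_cases i <;> simp [a12, b12] <;> norm_num
      · fin_cases i <;> simp [a18, b18] <;> norm_num
      · exact l2_le hr h12 h18
      · norm_num
    · intro r hr i
      unfold bb
      split_ifs with h12 h18
      · fin_cases i <;> simp [b12] <;> norm_num
      · fin_cases i <;> simp [b18] <;> norm_num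
      · norm_num
    · intro r hr i i' hii
      unfold aa bb
      split_ifs with h12 h18 h0
      · fin_cases i <;> fin_cases i' <;> simp [a12, b12] at hii ⊢ <;> norm_num
      · fin_cases i <;> fin_cases i' <;> simp [a18, b18] at hii ⊢ <;> norm_num
      · exfalso
        rw [h0] at hii
        exact absurd hii (Fin.not_lt_zero i)
      · norm_num
    · intro r hr
      by_cases h12 : r = 12
      · rw [h12, sum12]
        norm_num
      by_cases h18 : r = 18
      · rw [h18, sum18]
        norm_num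
      rw [sum_single h12 h18]
      linarith [l2_nonneg r]
    intro d hd h
    by_cases hd300 : d < 300
    · exact Or.inl hd300
    right
    have hd300' : 300 ≤ d := by omega
    intro r hr
    have key : ∀ q ∈ T0, q ≠ 12 → q ≠ 18 → D q d := by
      intro q hq h12 h18
      obtain ⟨i, h2, h3⟩ := h q hq
      rw [conv1 hq] at h2 h3
      have e1 : rho q = q := by
        unfold rho
        rw [if_neg h12, if_neg h18]
      rw [e1] at h2 h3
      refine good_single hD hd300' hq h12 h18 ?_
      unfold aa at h2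
      unfold bb at h3
      rw [if_neg h12, if_neg h18] at h2 h3
      by_cases hi : i = 0
      · rw [if_pos hi] at h2
        exact h2
      · rw [if_neg hi] at h2
        linarith
    have h4 : D 12 d ∧ D 27 d := by
      apply dclass12 hD hd300'
      obtain ⟨i, h2, h3⟩ := h 12 (by decide)
      rw [conv1 (by decide)] at h2 h3
      refine ⟨i, ?_, ?_⟩
      · simpa [g2, aa, rho] using h2
      · simpa [g2, bb, rho] using h3
    have h6 : D 18 d ∧ D 32 d := by
      apply dclass18 hD hd300'
      obtain ⟨i, h2, h3⟩ := h 18 (by decide)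
      rw [conv1 (by decide)] at h2 h3
      refine ⟨i, ?_, ?_⟩
      · simpa [g2, aa, rho] using h2
      · simpa [g2, bb, rho] using h3
    rcases Nat.lt_or_ge r 37 with hlt | hge
    · interval_cases r
      · exact key 10 (by decide) (by decide) (by decide)
      · exact key 11 (by decide) (by decide) (by decide)
      · exact h4.1
      · exact hD.2.2 13 d (by norm_num) hd
      · exact key 14 (by decide) (by decide) (by decide)
      · exact key 15 (by decide) (by decide) (by decide)
      · exact hD.2.2 16 d (Or.inr (Or.inr (Or.inr ⟨by norm_num, ⟨4, by norm_num⟩⟩))) hd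
      · exact key 17 (by decide) (by decide) (by decide)
      · exact h6.1
      · exact key 19 (by decide) (by decide) (by decide)
      · exact key 20 (by decide) (by decide) (by decide)
      · exact hD.2.2 21 d (by norm_num) hd
      · exact key 22 (by decide) (by decide) (by decide)
      · exact key 23 (by decide) (by decide) (by decide)
      · exact key 24 (by decide) (by decide) (by decide)
      · exact hD.2.2 25 d (Or.inr (Or.inr (Or.inr ⟨by norm_num, ⟨5, by norm_num⟩⟩))) hd
      · exact key 26 (by decide) (by decide) (by decide)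
      · exact h4.2
      · exact key 28 (by decide) (by decide) (by decide)
      · exact key 29 (by decide) (by decide) (by decide)
      · exact key 30 (by decide) (by decide) (by decide)
      · exact key 31 (by decide) (by decide) (by decide)
      · exact h6.2
      · exact key 33 (by decide) (by decide) (by decide)
      · exact key 34 (by decide) (by decide) (by decide)
      · exact key 35 (by decide) (by decide) (by decide)
      · exact hD.2.2 36 d (Or.inr (Or.inr (Or.inr ⟨by norm_num, ⟨6, by norm_num⟩⟩))) hd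
    · exact hD.2.2 r d (Or.inl hge) hd
  exact hT.mono (by linarith [prod_aa])

lemma L20_nsq' : ∀ r ∈ L20, ¬ IsSquare r := by decide +kernel

lemma w_le : ∀ r ∈ L20, wl r + wu r ≤ 2000 := by decide

/-- one number of points: multiplicities -/
theorem one_mult (G : ℕ → ℕ → Prop) (hG : MIn G) {r : ℕ} {c : ℝ} (hc0 : 0 < c) (hc1 : c < 1) :
    (r ∈ L20 → InFamilies c (((wl r : ℝ) + wu r) / 2000) (G r)) ∧
    (r = 11 ∨ r = 15 → InFamilies c ((Real.sqrt r - 3) ^ 2 / (6 * (Real.sqrt r + 3))) (G r)) ∧
    (37 ≤ r ∨ r = 13 ∨ r = 21 ∨ (10 ≤ r ∧ IsSquare r) → InFamilies c 0 (G r)) := by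
  refine ⟨fun hr => ?_, fun hr => ?_, fun hr => inFamilies_all le_rfl fun m hm => hG.2.2 r m hr hm⟩
  · have h2 : ((wl r + wu r : ℕ) : ℝ) ≤ 2000 := by exact_mod_cast w_le r hr
    push_cast at h2
    refine one_in (t := 1) (L20_nsq' r hr) le_rfl hc0 hc1 (by positivity) (by
      rw [div_le_one (by norm_num)]
      exact h2) ((Real.sqrt r - 3 + (wu r : ℝ) / 1000) / 2) 43 (G r) ?_
    intro m hm hm43 hbad
    obtain ⟨d, h3, h4⟩ := hG.1 r hr m hm43 hbad
    have h5 := fract_le h3 h4
    rw [Nat.cast_one, div_one]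
    refine h5.trans (le_of_eq ?_)
    ring
  · have hns : ¬ IsSquare r := by rcases hr with rfl | rfl <;> decide +kernel
    have hs3 : 3 ≤ Real.sqrt r := sqrt_ge (by omega)
    have hs4 : Real.sqrt r ≤ 4 := by
      rw [Real.sqrt_le_left (by norm_num)]
      rcases hr with rfl | rfl <;> norm_num
    refine one_in (t := 3) hns (by norm_num) hc0 hc1 (by positivity) (by
      rw [div_le_one (by positivity)]
      nlinarith) ((Real.sqrt r - 3) / 6) 0 (G r) ?_
    intro m hm _ hbad
    obtain ⟨k, hk1, hk2⟩ := hG.2.1 r hr m hbad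
    refine fract_le_of (m := k) ?_ ?_
    · push_cast
      linarith
    · have h5 : (Real.sqrt r - 3) ^ 2 / (6 * (Real.sqrt r + 3)) =
          (Real.sqrt r - 3) / 6 - (3 * (Real.sqrt r - 3) / (Real.sqrt r + 3)) / 3 := by
        have h6 : Real.sqrt r + 3 ≠ 0 := by linarith
        field_simp
        ring
      rw [h5]
      push_cast
      linarith

/-- one number of points: degrees -/
theorem one_deg (D : ℕ → ℕ → Prop) (hD : DIn D) {r : ℕ} {c : ℝ} (hc0 : 0 < c) (hc1 : c < 1) :
    (r ∈ L20 → InFamilies c (((wl r : ℝ) / 1000 + (wu r : ℝ) / 1000) / (2 * Real.sqrt r)) (D r)) ∧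
    (r = 11 ∨ r = 15 → InFamilies c ((Real.sqrt r - 3) ^ 2 / (2 * Real.sqrt r * (Real.sqrt r + 3))) (D r)) ∧
    (37 ≤ r ∨ r = 13 ∨ r = 21 ∨ (10 ≤ r ∧ IsSquare r) → InFamilies c 0 (D r)) := by
  have hconv : ∀ d : ℕ, 0 < Real.sqrt r → Real.sqrt r / (r : ℝ) * d = d / Real.sqrt r := by
    intro d h0
    rw [Real.sqrt_div_self, inv_mul_eq_div]
  refine ⟨fun hr => ?_, fun hr => ?_, fun hr => inFamilies_all le_rfl fun m hm => hD.2.2 r m hr hm⟩
  · have hr10 := (L20_le r hr).1
    have hs3 : 3 ≤ Real.sqrt r := sqrt_ge hr10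
    have h2 : ((wl r + wu r : ℕ) : ℝ) ≤ 2000 := by exact_mod_cast w_le r hr
    push_cast at h2
    refine one_in (t := r) (L20_nsq' r hr) (by omega) hc0 hc1 (by positivity) (by
      rw [div_le_one (by positivity)]
      linarith) ((3 + (wl r : ℝ) / 1000) / (2 * Real.sqrt r) - 1 / 2) 300 (D r) ?_
    intro d hd hd300 hbad
    obtain ⟨m, h3, h4⟩ := hD.1 r hr d hd300 hbad
    rw [hconv d (by linarith)]
    exact fract_deg (by linarith) h3 h4
  · have hns : ¬ IsSquare r := by rcases hr with rfl | rfl <;> decide +kernel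
    have hs3 : 3 ≤ Real.sqrt r := sqrt_ge (by omega)
    have hs0 : 0 < Real.sqrt r := by linarith
    have hs4 : Real.sqrt r ≤ 4 := by
      rw [Real.sqrt_le_left (by norm_num)]
      rcases hr with rfl | rfl <;> norm_num
    refine one_in (t := r) hns (by omega) hc0 hc1 (by positivity) (by
      rw [div_le_one (by positivity)]
      nlinarith) (-(3 * (Real.sqrt r - 3) / (Real.sqrt r + 3) / Real.sqrt r)) 0 (D r) ?_
    intro d hd _ hbad
    obtain ⟨m, hm1, hm2⟩ := hD.2.1 r hr d hbad
    rw [hconv d hs0]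
    have h3 : (d : ℝ) / Real.sqrt r + -(3 * (Real.sqrt r - 3) / (Real.sqrt r + 3) / Real.sqrt r) - m =
        ((d : ℝ) - Real.sqrt r * m - 3 * (Real.sqrt r - 3) / (Real.sqrt r + 3)) / Real.sqrt r := by
      field_simp
      ring
    refine fract_le_of (m := m) ?_ ?_
    · rw [h3]
      exact div_nonneg (by linarith) hs0.le
    · rw [h3]
      have h5 : (Real.sqrt r - 3) ^ 2 / (2 * Real.sqrt r * (Real.sqrt r + 3)) =
          ((Real.sqrt r - 3) / 2 - 3 * (Real.sqrt r - 3) / (Real.sqrt r + 3)) / Real.sqrt r := by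
        have h6 : Real.sqrt r + 3 ≠ 0 := by linarith
        field_simp
        ring
      rw [h5]
      exact div_le_div_of_nonneg_right (by linarith) hs0.le

end Pool.Agent.H96.FP
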