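import Pool.Agent.H96.FP.F
import Pool.Agent.H96.LM.E

set_option autoImplicit false

/-! # The values of polynomials at dense sets -/

namespace Pool.Agent.H96.FP

open Finset
open Pool.Agent.TH935.GF (En)
open Pool.Agent.Q29.Eqd (ev_rpow)

lemma Few.mono {E : Set ℤ} {X X' Y Y' : ℝ} (h : Few E X Y) (hX : X' ≤ X) (hY : Y ≤ Y') : Few E X' Y' := by
  intro x
  refine le_trans ?_ ((h x).trans hY)
  have hfin : {a : ℤ | a ∈ E ∧ x ≤ a ∧ (a : ℝ) ≤ x + X}.Finite := by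
    apply (Set.finite_Icc x (x + ⌊X⌋)).subset
    rintro a ⟨-, h2, h3⟩
    refine ⟨h2, ?_⟩
    have h4 : a - x ≤ ⌊X⌋ := by
      rw [Int.le_floor]
      push_cast
      linarith
    linarith
  have h1 := Set.ncard_le_ncard (s := {a : ℤ | a ∈ E ∧ x ≤ a ∧ (a : ℝ) ≤ x + X'}) (fun a ha =>
    (⟨ha.1, ha.2.1, ha.2.2.trans (by linarith)⟩ : a ∈ {a : ℤ | a ∈ E ∧ x ≤ a ∧ (a : ℝ) ≤ x + X})) hfin
  exact_mod_cast h1

open Classical in
theorem poly_families {c lam : ℝ} {P : ℕ → Prop} (hc0 : 0 < c) (h : InFamilies c lam P) (f : Polynomial ℤ)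
    (hf : 1 ≤ f.natDegree) (δ : ℝ) (hδ : 0 < δ) :
    ∃ η κ : ℝ, 0 < η ∧ 0 < κ ∧ ∃ X₀ : ℕ, ∀ X : ℕ, X₀ ≤ X → ∀ F : Finset ℕ, F ⊆ Icc 1 X →
      (X : ℝ) ^ (1 - η) ≤ F.card → ∀ g : ℕ → ℤ,
      ∃ E : Set ℤ, Few E ((X : ℝ) ^ (c * f.natDegree)) ((X : ℝ) ^ δ) ∧ ∀ a : ℤ, a ∉ E → ∀ b : ℤ,
        ((F.filter fun n : ℕ => 0 < a * f.eval (n : ℤ) + g n + b ∧ ¬ P (a * f.eval (n : ℤ) + g n + b).toNat).card : ℝ) ≤
          (lam + (X : ℝ) ^ (-κ)) * F.card := by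
  obtain ⟨k, hk⟩ : ∃ k, k = f.natDegree := ⟨_, rfl⟩
  rw [← hk] at hf ⊢
  have hkR : (1 : ℝ) ≤ k := by exact_mod_cast hf
  obtain ⟨p, C₁, hC₁, h1⟩ := Pool.Agent.TH823.Fam.energy_poly' f (by omega)
  obtain ⟨A, hA⟩ := Pool.Agent.TH823.Fam.poly_size f
  obtain ⟨η, κ, hη, hκ, N₀, h2⟩ := h p (δ / (k + 1)) (by positivity)
  obtain ⟨B, hB⟩ : ∃ B : ℕ, B = A + 1 := ⟨_, rfl⟩
  obtain ⟨X₁, hX₁1, hX₁⟩ := ev_rpow 1 (B : ℝ) one_pos
  obtain ⟨X₂, hX₂1, hX₂⟩ := ev_rpow (η / 2) (C₁ * B) (by positivity)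
  refine ⟨η / (4 * (p + 1)), κ, by positivity, hκ, X₁ + X₂ + N₀ + 1, fun X hX F hF hFX g => ?_⟩
  have h3 := hX₁ X (by omega)
  have h4 := hX₂ X (by omega)
  rw [Real.rpow_one] at h3
  have hXpos : 1 ≤ X := by omega
  have hX1 : (1 : ℝ) ≤ X := by exact_mod_cast hXpos
  have hX0 : (0 : ℝ) < X := by linarith
  obtain ⟨N, hN⟩ : ∃ N : ℕ, N = B * X ^ k := ⟨_, rfl⟩
  have hB1 : 1 ≤ B := by omega
  have hNX : X ≤ N := by
    rw [hN]
    calc X = 1 * X ^ 1 := by ring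
      _ ≤ B * X ^ k := Nat.mul_le_mul hB1 (Nat.pow_le_pow_right hXpos hf)
  have hNXR : (X : ℝ) ≤ N := by exact_mod_cast hNX
  have hNr : (N : ℝ) = B * (X : ℝ) ^ k := by rw [hN]; push_cast; rfl
  have hN0 : (0 : ℝ) < N := by linarith
  have hXkN : (X : ℝ) ^ k ≤ N := by
    rw [hNr]
    have : (1 : ℝ) ≤ B := by exact_mod_cast hB1
    nlinarith [pow_pos hX0 k]
  have hNle : (N : ℝ) ≤ (X : ℝ) ^ (k + 1) := by
    rw [hNr, pow_succ, mul_comm]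
    exact mul_le_mul_of_nonneg_left h3 (by positivity)
  have hen : (En p (fun n : {n // n ∈ F} => f.eval ((n : ℕ) : ℤ)) : ℝ) * (X : ℝ) ^ k ≤ C₁ * (X : ℝ) ^ (2 * p) := by
    have h5 : (En p (fun n : {n // n ∈ F} => f.eval ((n : ℕ) : ℤ)) : ℝ) ≤
        Pool.Agent.H373R2.T7.energy p X (fun n => f.eval (n : ℤ)) := by
      exact_mod_cast Pool.Agent.H96.PR.energy_sub p X (fun n => f.eval (n : ℤ)) F hF
    have h7 := h1 X hXpos 0
    simp only [zero_add] at h7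
    rw [← hk] at h7
    exact (mul_le_mul_of_nonneg_right h5 (by positivity)).trans h7
  have hE : (En p (fun n : {n // n ∈ F} => f.eval ((n : ℕ) : ℤ)) : ℝ) * N ≤
      (N : ℝ) ^ η * (Fintype.card {n // n ∈ F} : ℝ) ^ (2 * p) := by
    rw [Fintype.card_coe]
    have h5 : (X : ℝ) ^ (2 * p) ≤ (X : ℝ) ^ (η / 2) * (F.card : ℝ) ^ (2 * p) := by
      have h6 : ((X : ℝ) ^ (1 - η / (4 * (p + 1)))) ^ (2 * p) ≤ (F.card : ℝ) ^ (2 * p) :=
        pow_le_pow_left₀ (by positivity) hFX _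
      have h7 : (X : ℝ) ^ (2 * p) ≤ (X : ℝ) ^ (η / 2) * ((X : ℝ) ^ (1 - η / (4 * (p + 1)))) ^ (2 * p) := by
        rw [← Real.rpow_natCast, ← Real.rpow_natCast, ← Real.rpow_mul hX0.le, ← Real.rpow_add hX0]
        apply Real.rpow_le_rpow_of_exponent_le hX1
        push_cast
        have h8 : η / (4 * (p + 1)) * (2 * p) ≤ η / 2 := by
          rw [div_mul_eq_mul_div, div_le_div_iff₀ (by positivity) (by norm_num)]
          nlinarith [Nat.cast_nonneg (α := ℝ) p]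
        linarith
      exact h7.trans (mul_le_mul_of_nonneg_left h6 (by positivity))
    have h6 : (X : ℝ) ^ η ≤ (N : ℝ) ^ η := Real.rpow_le_rpow hX0.le hNXR hη.le
    have h7 : (X : ℝ) ^ η = (X : ℝ) ^ (η / 2) * (X : ℝ) ^ (η / 2) := by
      rw [← Real.rpow_add hX0]
      congr 1
      ring
    calc (En p (fun n : {n // n ∈ F} => f.eval ((n : ℕ) : ℤ)) : ℝ) * N =
          (En p (fun n : {n // n ∈ F} => f.eval ((n : ℕ) : ℤ)) : ℝ) * (X : ℝ) ^ k * B := by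
          rw [hNr]
          ring
      _ ≤ C₁ * (X : ℝ) ^ (2 * p) * B := mul_le_mul_of_nonneg_right hen (Nat.cast_nonneg _)
      _ = (C₁ * B) * (X : ℝ) ^ (2 * p) := by ring
      _ ≤ (X : ℝ) ^ (η / 2) * ((X : ℝ) ^ (η / 2) * (F.card : ℝ) ^ (2 * p)) :=
          mul_le_mul h4 h5 (by positivity) (by positivity)
      _ = (X : ℝ) ^ η * (F.card : ℝ) ^ (2 * p) := by rw [h7]; ring
      _ ≤ _ := mul_le_mul_of_nonneg_right h6 (by positivity)
  obtain ⟨E, hE1, hE2⟩ := h2 N (by omega) {n // n ∈ F} (fun n => f.eval ((n : ℕ) : ℤ)) (fun n => g n) (by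
    intro n
    have h6 := hA X hXpos (n : ℕ) (hF n.2)
    rw [← hk] at h6
    have h7 : (A : ℤ) * (X : ℤ) ^ k ≤ N := by
      rw [hN, hB]
      push_cast
      have : (0 : ℤ) ≤ (X : ℤ) ^ k := by positivity
      nlinarith
    exact h6.trans h7) hE
  refine ⟨E, hE1.mono ?_ ?_, fun a ha b => ?_⟩
  · calc (X : ℝ) ^ (c * k) = ((X : ℝ) ^ k) ^ c := by
          rw [← Real.rpow_natCast, ← Real.rpow_mul hX0.le, mul_comm]
      _ ≤ (N : ℝ) ^ c := Real.rpow_le_rpow (by positivity) hXkN hc0.le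
  · calc (N : ℝ) ^ (δ / (k + 1)) ≤ ((X : ℝ) ^ (k + 1)) ^ (δ / (k + 1)) :=
          Real.rpow_le_rpow hN0.le hNle (by positivity)
      _ = (X : ℝ) ^ δ := by
          rw [← Real.rpow_natCast, ← Real.rpow_mul hX0.le]
          congr 1
          push_cast
          field_simp
  · have h5 := hE2 a ha b
    rw [Fintype.card_coe] at h5
    have h6 : (N : ℝ) ^ (-κ) ≤ (X : ℝ) ^ (-κ) := Real.rpow_le_rpow_of_nonpos hX0 hNXR (by linarith)
    have h7 : (F.filter fun n : ℕ => 0 < a * f.eval (n : ℤ) + g n + b ∧ ¬ P (a * f.eval (n : ℤ) + g n + b).toNat).card ≤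
        ((univ : Finset {n // n ∈ F}).filter fun n : {n // n ∈ F} => 0 < a * f.eval ((n : ℕ) : ℤ) + g n + b ∧
          ¬ P (a * f.eval ((n : ℕ) : ℤ) + g n + b).toNat).card := by
      apply card_le_card_of_surjOn (fun n : {n // n ∈ F} => (n : ℕ))
      intro n hn
      rw [coe_filter] at hn
      refine ⟨⟨n, hn.1⟩, ?_, rfl⟩
      rw [coe_filter]
      exact ⟨mem_univ _, hn.2⟩
    have h8 : ((F.filter fun n : ℕ => 0 < a * f.eval (n : ℤ) + g n + b ∧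
        ¬ P (a * f.eval (n : ℤ) + g n + b).toNat).card : ℝ) ≤
        (((univ : Finset {n // n ∈ F}).filter fun n : {n // n ∈ F} => 0 < a * f.eval ((n : ℕ) : ℤ) + g n + b ∧
          ¬ P (a * f.eval ((n : ℕ) : ℤ) + g n + b).toNat).card : ℝ) := by exact_mod_cast h7
    refine h8.trans (h5.trans ?_)
    apply mul_le_mul_of_nonneg_right _ (Nat.cast_nonneg _)
    linarith

end Pool.Agent.H96.FP
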